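import Pool.Agent.H84.TS.Gr
import Pool.Agent.H92.SR.Tim

/-!
MP_3b0ce5_lc (shortest graphs on random points): the union over the patterns and the mean over the
other coordinates.
-/

set_option autoImplicit false

namespace Pool.Agent.H84.TS

open Finset Pool.Agent.H92.SR Pool.Agent.H92.SR.Tr

variable {n : ℕ}

/-- a list of length at most `D` as a function -/
def pt (D : ℕ) (ν : List (Fin n)) : Fin D → Option (Fin n) := fun i => ν[i.1]?

theorem pt_inj {D : ℕ} {ν ν' : List (Fin n)} (h1 : ν.length ≤ D) (h2 : ν'.length ≤ D) (h : pt D ν = pt D ν') :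
    ν = ν' := by
  apply List.ext_getElem?
  intro i
  by_cases hi : i < D
  · exact congrFun h ⟨i, hi⟩
  · rw [List.getElem?_eq_none (by omega), List.getElem?_eq_none (by omega)]

/-- bad placements: some shortest graph has a length close to an integer -/
def Bad (F : Set (List (Fin n × Fin n))) (D b : ℕ) (x y : Fin n → ℕ) : Prop :=
  ∃ (k : ℕ) (G : List (Fin n × Fin n)), Shortest F x y G ∧ |len x y G - k| * 2 ^ (1 + b * 4 ^ (D + 1)) < 1

open Classical in
theorem one_vertex {D N h : ℕ} (hD : 1 ≤ D) (hn : 1 ≤ n) (h1 : 1 ≤ h) (hh : h ^ 3 ≤ N) {x y : Fin n → ℕ}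
    (hx : ∀ i, x i < N) (hy : ∀ i, y i < N) (o : Fin n) (hyo : ∀ j, j ≠ o → y o ≠ y j)
    (F : Set (List (Fin n × Fin n))) (hF : ∀ G ∈ F, Deg D G) {b : ℕ}
    (hb : 16 * (n * D * N) ≤ 2 ^ b) :
    ((range N).filter fun v => Bad F D b (Function.update x o v) y).card * h ≤
      5 * (D + 1) * (n + 1) ^ D * N := by
  set V := (range N).filter fun v => Bad F D b (Function.update x o v) y with hV
  set W : (Fin D → Option (Fin n)) → Finset ℕ := fun f => V.filter fun v => ∃ (k : ℕ) (G : List (Fin n × Fin n)),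
    Shortest F (Function.update x o v) y G ∧ pt D (nb o G) = f ∧
      |len (Function.update x o v) y G - k| * 2 ^ (1 + b * 4 ^ (D + 1)) < 1 with hW
  have hsub : V ⊆ (univ : Finset (Fin D → Option (Fin n))).biUnion W := by
    intro v hv
    obtain ⟨k, G, hS, hl⟩ := (mem_filter.1 hv).2
    rw [mem_biUnion]
    exact ⟨pt D (nb o G), mem_univ _, mem_filter.2 ⟨hv, k, G, hS, rfl, hl⟩⟩
  have hWc : ∀ f, (W f).card * h ≤ (D + 1) * (5 * N) := by
    intro f
    rcases (W f).eq_empty_or_nonempty with he | ⟨v0, hv0⟩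
    · rw [he]; simp
    obtain ⟨k0, G0, hS0, hf0, hl0⟩ := (mem_filter.1 hv0).2
    refine pat hD hn h1 hh hx hy o hyo F hF (nb o G0) hb (W f)
      ((Finset.filter_subset _ _).trans (Finset.filter_subset _ _)) fun v hv => ?_
    obtain ⟨k, G, hS, hf, hl⟩ := (mem_filter.1 hv).2
    exact ⟨k, G, hS, pt_inj ((hF G hS.1).2 o).2 ((hF G0 hS0.1).2 o).2 (hf.trans hf0.symm), hl⟩
  have c1 := (Finset.card_le_card hsub).trans Finset.card_biUnion_le
  calc V.card * h ≤ (∑ f, (W f).card) * h := Nat.mul_le_mul_right _ c1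
    _ = ∑ f, (W f).card * h := Finset.sum_mul _ _ _
    _ ≤ ∑ _f : Fin D → Option (Fin n), (D + 1) * (5 * N) := Finset.sum_le_sum fun f _ => hWc f
    _ = (n + 1) ^ D * ((D + 1) * (5 * N)) := by simp
    _ = 5 * (D + 1) * (n + 1) ^ D * N := by ring

/-- the box -/
def bxx (n N : ℕ) : Finset (Fin n → ℕ) := Fintype.piFinset fun _ : Fin n => range N

theorem mem_bxx {N : ℕ} {x : Fin n → ℕ} : x ∈ bxx n N ↔ ∀ i, x i < N := by
  unfold bxx
  rw [Fintype.mem_piFinset]
  simp

theorem card_bxx (n N : ℕ) : (bxx n N).card = N ^ n := by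
  unfold bxx
  rw [Fintype.card_piFinset]
  simp

theorem mean {N K h : ℕ} (hN : 1 ≤ N) (o : Fin n) (P : (Fin n → ℕ) → Prop) [DecidablePred P]
    (hK : ∀ x ∈ bxx n N, ((range N).filter fun v => P (Function.update x o v)).card * h ≤ K * N) :
    ((bxx n N).filter P).card * h ≤ K * N ^ n := by
  have h1 : ∑ x ∈ bxx n N, ((range N).filter fun v => P (Function.update x o v)).card =
      ((bxx n N).filter P).card * N := by
    have e1 : ∑ x ∈ bxx n N, ((range N).filter fun v => P (Function.update x o v)).card =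
        ((bxx n N ×ˢ range N).filter fun q => P (Function.update q.1 o q.2)).card := by
      rw [Finset.card_filter, Finset.sum_product]
      refine Finset.sum_congr rfl fun x _ => ?_
      rw [Finset.card_filter]
    rw [e1, ← Finset.card_range N, ← Finset.card_product, Finset.card_range]
    refine Finset.card_nbij' (fun q => (Function.update q.1 o q.2, q.1 o))
      (fun q => (Function.update q.1 o q.2, q.1 o)) ?_ ?_ ?_ ?_
    · intro q hq
      rw [Finset.mem_coe, mem_filter, mem_product] at hq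
      obtain ⟨⟨hq1, hq2⟩, hP⟩ := hq
      rw [Finset.mem_coe, mem_product, mem_filter]
      refine ⟨⟨mem_bxx.2 fun i => ?_, hP⟩, mem_range.2 (mem_bxx.1 hq1 o)⟩
      by_cases hi : i = o
      · rw [hi]
        simpa using mem_range.1 hq2
      · simp only [Function.update_of_ne hi]
        exact mem_bxx.1 hq1 i
    · intro q hq
      rw [Finset.mem_coe, mem_product, mem_filter] at hq
      obtain ⟨⟨hq1, hP⟩, hq2⟩ := hq
      rw [Finset.mem_coe, mem_filter, mem_product]
      refine ⟨⟨mem_bxx.2 fun i => ?_, mem_range.2 (mem_bxx.1 hq1 o)⟩, ?_⟩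
      · by_cases hi : i = o
        · rw [hi]
          simpa using mem_range.1 hq2
        · simp only [Function.update_of_ne hi]
          exact mem_bxx.1 hq1 i
      · simpa using hP
    · intro q _
      simp
    · intro q _
      simp
  have h2 : ((bxx n N).filter P).card * N * h ≤ N ^ n * (K * N) := by
    rw [← h1, Finset.sum_mul, ← card_bxx n N, ← smul_eq_mul]
    exact Finset.sum_le_card_nsmul _ _ _ hK
  have h3 : (((bxx n N).filter P).card * h) * N ≤ (K * N ^ n) * N := by
    calc (((bxx n N).filter P).card * h) * N = ((bxx n N).filter P).card * N * h := by ring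
      _ ≤ N ^ n * (K * N) := h2
      _ = (K * N ^ n) * N := by ring
  exact Nat.le_of_mul_le_mul_right h3 hN

open Classical in
theorem bad_count {D N h : ℕ} (hD : 1 ≤ D) (hn : 1 ≤ n) (h1 : 1 ≤ h) (hh : h ^ 3 ≤ N)
    (F : Set (List (Fin n × Fin n))) (hF : ∀ G ∈ F, Deg D G) {b : ℕ} (hb : 16 * (n * D * N) ≤ 2 ^ b) :
    ((bxx n N ×ˢ bxx n N).filter fun p => Bad F D b p.1 p.2).card * h ≤ (5 * D + 6) * (n + 1) ^ D * N ^ (2 * n) := by
  have hhN : h ≤ N := by
    calc h = h ^ 1 := (pow_one h).symm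
      _ ≤ h ^ 3 := Nat.pow_le_pow_right h1 (by norm_num)
      _ ≤ N := hh
  have hN : 1 ≤ N := h1.trans hhN
  set o : Fin n := ⟨0, hn⟩ with ho
  set K := 5 * (D + 1) * (n + 1) ^ D with hK
  set Y := (bxx n N).filter fun y => ∃ j, j ≠ o ∧ y o = y j with hY
  have hYc : Y.card * N ≤ n * N ^ n := by
    refine mean (h := N) hN o (fun y => ∃ j, j ≠ o ∧ y o = y j) fun y hy => ?_
    refine Nat.mul_le_mul_right _ ?_
    have hsub : ((range N).filter fun v => ∃ j, j ≠ o ∧ Function.update y o v o = Function.update y o v j) ⊆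
        univ.image y := by
      intro v hv
      obtain ⟨-, j, hj, hv2⟩ := mem_filter.1 hv
      rw [Function.update_self, Function.update_of_ne hj] at hv2
      exact mem_image.2 ⟨j, mem_univ _, hv2.symm⟩
    refine (Finset.card_le_card hsub).trans (Finset.card_image_le.trans ?_)
    simp
  have e1 : ((bxx n N ×ˢ bxx n N).filter fun p => Bad F D b p.1 p.2).card =
      ∑ y ∈ bxx n N, ((bxx n N).filter fun x => Bad F D b x y).card := by
    rw [Finset.card_filter, Finset.sum_product_right]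
    refine Finset.sum_congr rfl fun y _ => ?_
    rw [Finset.card_filter]
  have e2 : ∀ y ∈ bxx n N, ((bxx n N).filter fun x => Bad F D b x y).card * h ≤
      K * N ^ n + (if ∃ j, j ≠ o ∧ y o = y j then N ^ n * h else 0) := by
    intro y hy
    by_cases hyo : ∃ j, j ≠ o ∧ y o = y j
    · rw [if_pos hyo]
      have h2 : ((bxx n N).filter fun x => Bad F D b x y).card ≤ N ^ n := by
        rw [← card_bxx n N]
        exact Finset.card_filter_le _ _
      have := Nat.mul_le_mul_right h h2
      omega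
    · rw [if_neg hyo, add_zero]
      push Not at hyo
      exact mean hN o _ fun x hx => one_vertex hD hn h1 hh (mem_bxx.1 hx) (mem_bxx.1 hy) o hyo F hF hb
  rw [e1, Finset.sum_mul]
  refine (Finset.sum_le_sum e2).trans ?_
  rw [Finset.sum_add_distrib, Finset.sum_const, card_bxx, smul_eq_mul, ← Finset.sum_filter, Finset.sum_const, ← hY,
    smul_eq_mul]
  have h3 : Y.card * (N ^ n * h) ≤ n * N ^ n * N ^ n := by
    calc Y.card * (N ^ n * h) ≤ Y.card * (N ^ n * N) := Nat.mul_le_mul_left _ (Nat.mul_le_mul_left _ hhN)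
      _ = Y.card * N * N ^ n := by ring
      _ ≤ n * N ^ n * N ^ n := Nat.mul_le_mul_right _ hYc
  have h4 : n ≤ (n + 1) ^ D := by
    calc n ≤ (n + 1) ^ 1 := by rw [pow_one]; omega
      _ ≤ (n + 1) ^ D := Nat.pow_le_pow_right (by omega) hD
  have h5 : n * N ^ n * N ^ n ≤ (n + 1) ^ D * N ^ n * N ^ n :=
    Nat.mul_le_mul_right _ (Nat.mul_le_mul_right _ h4)
  calc N ^ n * (K * N ^ n) + Y.card * (N ^ n * h) ≤ N ^ n * (K * N ^ n) + (n + 1) ^ D * N ^ n * N ^ n := by omega
    _ = (5 * D + 6) * (n + 1) ^ D * N ^ (2 * n) := by rw [hK, two_mul, pow_add]; ring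

theorem size_dd {x y : Fin n → ℕ} {N : ℕ} (hx : ∀ i, x i < N) (hy : ∀ i, y i < N) (i j : Fin n) :
    Nat.size (dd x y i j) ≤ 2 * Nat.size N + 1 := by
  apply Nat.size_le.2
  have h1 := dd_le hx hy i j
  have h2 : N < 2 ^ Nat.size N := Nat.lt_size_self N
  calc dd x y i j ≤ 2 * N ^ 2 := h1
    _ < 2 * (2 ^ Nat.size N) ^ 2 := by
        have := Nat.pow_lt_pow_left h2 (two_ne_zero)
        omega
    _ = 2 ^ (2 * Nat.size N + 1) := by rw [← pow_mul, pow_succ]; ring

theorem bsz_lens {D N : ℕ} {x y : Fin n → ℕ} (hx : ∀ i, x i < N) (hy : ∀ i, y i < N) {G : List (Fin n × Fin n)}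
    (hG : Deg D G) (k : ℕ) : bsz (lens x y G) k ≤ n * D * (2 * Nat.size N + 2) + Nat.size k := by
  have h1 : ((lens x y G).map Nat.size).sum ≤ G.length * (2 * Nat.size N + 1) := by
    have h2 := List.sum_le_card_nsmul ((lens x y G).map Nat.size) (2 * Nat.size N + 1) (by
      intro a ha
      rw [List.mem_map] at ha
      obtain ⟨b, hb, rfl⟩ := ha
      unfold lens at hb
      rw [List.mem_map] at hb
      obtain ⟨e, -, rfl⟩ := hb
      exact size_dd hx hy _ _)
    rw [smul_eq_mul, List.length_map] at h2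
    refine h2.trans (le_of_eq ?_)
    unfold lens
    rw [List.length_map]
  have h2 : (lens x y G).length = G.length := by
    unfold lens
    rw [List.length_map]
  have h3 := length_le hG
  unfold bsz
  rw [h2]
  have h4 := Nat.mul_le_mul_right (2 * Nat.size N + 2) h3
  have h5 : G.length * (2 * Nat.size N + 2) = G.length + G.length * (2 * Nat.size N + 1) := by ring
  omega

open Classical in
theorem main : ∃ (c : Prog) (T : List ℕ → ℕ → ℕ),
    (∀ L k, Eval c (encI L k) (bit (decide ((L.map fun a : ℕ => √(a : ℝ)).sum ≤ k))) (T L k)) ∧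
    ∀ D : ℕ, 1 ≤ D → ∃ q : Polynomial ℕ, ∀ n N h : ℕ, 1 ≤ n → 1 ≤ h → h ^ 3 ≤ N →
      ∀ F : Set (List (Fin n × Fin n)), (∀ G ∈ F, Deg D G) →
        ((bxx n N ×ˢ bxx n N).filter fun p => ∃ k G, Shortest F p.1 p.2 G ∧
          q.eval (n * Nat.size N + Nat.size k) < T (lens p.1 p.2 G) k).card * h ≤
          (5 * D + 6) * (n + 1) ^ D * N ^ (2 * n) := by
  obtain ⟨c, T, q, Λ, -, hE, hT, -, -⟩ := tim
  refine ⟨c, T, fun L k => ?_, fun D hD => ?_⟩
  · have e : decide ((L.map fun a : ℕ => √(a : ℝ)).sum ≤ k) = decide (EE L k ≤ 0) := by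
      apply decide_eq_decide.2
      unfold EE
      rw [sub_nonpos]
    rw [e]
    exact hE L k
  · refine ⟨q.comp (Polynomial.C (4 * D + 3) * Polynomial.X + Polynomial.C (D + 4)) * Polynomial.C (Λ ^ (D + 1)),
      fun n N h hn h1 hh F hF => ?_⟩
    set b := Nat.size n + Nat.size N + D + 4 with hb
    have hhN : h ≤ N := by
      calc h = h ^ 1 := (pow_one h).symm
        _ ≤ h ^ 3 := Nat.pow_le_pow_right h1 (by norm_num)
        _ ≤ N := hh
    have hN : 1 ≤ N := h1.trans hhN
    have hb2 : 16 * (n * D * N) ≤ 2 ^ b := by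
      have a1 : n ≤ 2 ^ Nat.size n := (Nat.lt_size_self n).le
      have a2 : N ≤ 2 ^ Nat.size N := (Nat.lt_size_self N).le
      have a3 : D ≤ 2 ^ D := Nat.lt_two_pow_self.le
      calc 16 * (n * D * N) ≤ 16 * (2 ^ Nat.size n * 2 ^ D * 2 ^ Nat.size N) :=
            Nat.mul_le_mul_left _ (Nat.mul_le_mul (Nat.mul_le_mul a1 a3) a2)
        _ = 2 ^ b := by rw [hb, pow_add, pow_add, pow_add]; ring
    refine le_trans (Nat.mul_le_mul_right h (Finset.card_le_card ?_)) (bad_count hD hn h1 hh F hF hb2)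
    intro p hp
    obtain ⟨hp1, k, G, hS, hlt⟩ := mem_filter.1 hp
    refine mem_filter.2 ⟨hp1, k, G, hS, ?_⟩
    by_contra hcon
    rw [not_lt] at hcon
    obtain ⟨hx, hy⟩ := mem_product.1 hp1
    rw [mem_bxx] at hx hy
    have h2 := hT (lens p.1 p.2 G) k b (D + 1) hcon
    have h3 := bsz_lens hx hy (hF G hS.1) k
    have hsN : 1 ≤ Nat.size N := Nat.size_pos.2 hN
    have hsn : Nat.size n ≤ n := by
      apply Nat.size_le.2
      exact Nat.lt_two_pow_self
    have h4 : bsz (lens p.1 p.2 G) k + b ≤ (4 * D + 3) * (n * Nat.size N + Nat.size k) + (D + 4) := by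
      have a1 : n ≤ n * Nat.size N := Nat.le_mul_of_pos_right _ hsN
      have a2 : Nat.size N ≤ n * Nat.size N := Nat.le_mul_of_pos_left _ hn
      have a3 : n * D * (2 * Nat.size N + 2) ≤ 4 * D * (n * Nat.size N) := by
        calc n * D * (2 * Nat.size N + 2) ≤ n * D * (4 * Nat.size N) := Nat.mul_le_mul_left _ (by omega)
          _ = 4 * D * (n * Nat.size N) := by ring
      have a4 : (4 * D + 3) * (n * Nat.size N + Nat.size k) =
          4 * D * (n * Nat.size N) + 3 * (n * Nat.size N) + (4 * D + 3) * Nat.size k := by ring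
      have a5 : Nat.size k ≤ (4 * D + 3) * Nat.size k := Nat.le_mul_of_pos_left _ (by omega)
      omega
    have h5 : T (lens p.1 p.2 G) k ≤ (q.comp (Polynomial.C (4 * D + 3) * Polynomial.X + Polynomial.C (D + 4)) *
        Polynomial.C (Λ ^ (D + 1))).eval (n * Nat.size N + Nat.size k) := by
      rw [Polynomial.eval_mul, Polynomial.eval_comp, Polynomial.eval_C, Polynomial.eval_add, Polynomial.eval_mul,
        Polynomial.eval_C, Polynomial.eval_C, Polynomial.eval_X]
      exact h2.trans (Nat.mul_le_mul_right _ (poly_mono q h4))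
    omega

end Pool.Agent.H84.TS
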