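import Mathlib

/-!
# Functions with a small image, and values taken only once
-/

set_option autoImplicit false

namespace Pool.Agent.H84.TS

open Finset

theorem few_image {n N r : ℕ} (hr : 1 ≤ r) (hN : 1 ≤ N) :
    (((Fintype.piFinset fun _ : Fin n => range N)).filter
      fun y => (univ.image y).card ≤ r).card ≤ N ^ r * r ^ n := by
  classical
  have _ := hr
  have hsub : ((Fintype.piFinset fun _ : Fin n => range N)).filter
      (fun y => (univ.image y).card ≤ r) ⊆
      ((Fintype.piFinset fun _ : Fin r => range N) ×ˢ (univ : Finset (Fin n → Fin r))).image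
        (fun p => p.1 ∘ p.2) := by
    intro y hy
    rw [mem_filter, Fintype.mem_piFinset] at hy
    obtain ⟨hy1, hy2⟩ := hy
    set I : Finset ℕ := univ.image y with hI
    have hyI : ∀ i, y i ∈ I := fun i => mem_image_of_mem y (mem_univ i)
    rw [mem_image]
    refine ⟨(fun j : Fin r => if h : (j : ℕ) < I.card then
        ((I.equivFin.symm ⟨j, h⟩ : I) : ℕ) else 0,
      fun i => ⟨I.equivFin ⟨y i, hyI i⟩, lt_of_lt_of_le (Fin.is_lt _) hy2⟩), ?_, ?_⟩
    · rw [mem_product, Fintype.mem_piFinset]
      refine ⟨fun j => ?_, mem_univ _⟩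
      simp only
      split_ifs with h
      · obtain ⟨i, _, hi⟩ := mem_image.1 (I.equivFin.symm ⟨j, h⟩).2
        rw [← hi]
        exact hy1 i
      · exact mem_range.2 (by omega)
    · funext i
      simp
  refine (card_le_card hsub).trans (card_image_le.trans ?_)
  rw [card_product, Fintype.card_piFinset]
  simp

theorem clean_image {n : ℕ} (y : Fin n → ℕ) :
    2 * (univ.image y).card ≤ n + (univ.filter fun o => ∀ j, j ≠ o → y o ≠ y j).card := by
  classical
  set I : Finset ℕ := univ.image y with hI
  set F : ℕ → ℕ := fun v => (univ.filter fun i : Fin n => y i = v).card with hF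
  have h1 : n = ∑ v ∈ I, F v := by
    have := card_eq_sum_card_image y (univ : Finset (Fin n))
    rw [card_univ, Fintype.card_fin] at this
    exact this
  have h2 : (I.filter fun v => F v = 1).card ≤
      (univ.filter fun o : Fin n => ∀ j, j ≠ o → y o ≠ y j).card := by
    have hsub : (I.filter fun v => F v = 1) ⊆
        (univ.filter fun o : Fin n => ∀ j, j ≠ o → y o ≠ y j).image y := by
      intro v hv
      rw [mem_filter] at hv
      obtain ⟨o, ho⟩ := card_eq_one.1 hv.2
      have hoo : o ∈ univ.filter fun i : Fin n => y i = v := by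
        rw [ho]
        exact mem_singleton_self o
      have hov := (mem_filter.1 hoo).2
      refine mem_image.2 ⟨o, mem_filter.2 ⟨mem_univ _, fun j hj hcon => hj ?_⟩, hov⟩
      have hjj : j ∈ univ.filter fun i : Fin n => y i = v :=
        mem_filter.2 ⟨mem_univ _, by rw [← hcon, hov]⟩
      rw [ho] at hjj
      exact mem_singleton.1 hjj
    exact (card_le_card hsub).trans card_image_le
  have h3 : ∀ v ∈ I, 2 ≤ F v + if F v = 1 then 1 else 0 := by
    intro v hv
    have h4 : 1 ≤ F v := by
      rw [hI, mem_image] at hv
      obtain ⟨i, _, hi⟩ := hv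
      exact card_pos.2 ⟨i, mem_filter.2 ⟨mem_univ _, hi⟩⟩
    split_ifs with h5
    · omega
    · omega
  have h4 := sum_le_sum h3
  rw [sum_const, smul_eq_mul, sum_add_distrib, ← h1, ← card_filter] at h4
  omega

end Pool.Agent.H84.TS
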