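import Pool.Agent.H92.SR.Cls

/-!
MP_3b0ce5_lc (shortest graphs on random points): few radicands of the form `(v - z)^2 + c^2` lie in one square class.
-/

set_option autoImplicit false

namespace Pool.Agent.H84.TS

open Finset Pool.Agent.H92.SR

/-- the hyperbola -/
noncomputable def hy (c x : ℝ) : ℝ := √(x ^ 2 + c ^ 2)

theorem hy_pos {c : ℝ} (hc : c ≠ 0) (x : ℝ) : 0 < hy c x := by
  have : 0 < c ^ 2 := by positivity
  exact Real.sqrt_pos.2 (by positivity)

theorem hy_sq (c x : ℝ) : hy c x ^ 2 = x ^ 2 + c ^ 2 := Real.sq_sqrt (by positivity)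

theorem abs_le_hy (c x : ℝ) : |x| ≤ hy c x := by
  rw [← Real.sqrt_sq_eq_abs]
  exact Real.sqrt_le_sqrt (by nlinarith [sq_nonneg c])

/-- `x / hy c x` is strictly increasing -/
theorem hy_mono {c : ℝ} (hc : c ≠ 0) {a b : ℝ} (h : a < b) : a * hy c b < b * hy c a := by
  have ha := hy_pos hc a
  have hb := hy_pos hc b
  have hc2 : 0 < c ^ 2 := by positivity
  rcases le_or_gt 0 a with h0 | h0
  · have hb0 : 0 < b := lt_of_le_of_lt h0 h
    apply lt_of_pow_lt_pow_left₀ 2 (by positivity)
    rw [mul_pow, mul_pow, hy_sq, hy_sq]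
    have : a ^ 2 < b ^ 2 := by nlinarith
    nlinarith
  · rcases le_or_gt 0 b with h1 | h1
    · have : a * hy c b < 0 := mul_neg_of_neg_of_pos h0 hb
      have : 0 ≤ b * hy c a := mul_nonneg h1 ha.le
      linarith
    · have h2 : (-b) * hy c a < (-a) * hy c b := by
        apply lt_of_pow_lt_pow_left₀ 2 (mul_nonneg (by linarith) hb.le)
        rw [mul_pow, mul_pow, hy_sq, hy_sq]
        have : b ^ 2 < a ^ 2 := by nlinarith
        nlinarith
      linarith

theorem hy_diff (c a b : ℝ) : (hy c b - hy c a) * (hy c a + hy c b) = (b - a) * (a + b) := by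
  have h1 := hy_sq c a
  have h2 := hy_sq c b
  nlinarith

/-- slopes of disjoint chords are strictly increasing -/
theorem slope_lt {c : ℝ} (hc : c ≠ 0) {a b a' b' : ℝ} (h1 : a < b) (h2 : b ≤ a') (h3 : a' < b') :
    (hy c b - hy c a) * (b' - a') < (hy c b' - hy c a') * (b - a) := by
  have pa := hy_pos hc a
  have pb := hy_pos hc b
  have pa' := hy_pos hc a'
  have pb' := hy_pos hc b'
  have m1 := hy_mono hc h1
  have m3 := hy_mono hc h3
  have m2 : b * hy c a' ≤ a' * hy c b := by
    rcases h2.eq_or_lt with h | h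
    · rw [h]
    · exact (hy_mono hc h).le
  have e1 : hy c b - hy c a = (b - a) * ((a + b) / (hy c a + hy c b)) := by
    rw [← mul_div_assoc, eq_div_iff (by positivity)]
    exact hy_diff c a b
  have e2 : hy c b' - hy c a' = (b' - a') * ((a' + b') / (hy c a' + hy c b')) := by
    rw [← mul_div_assoc, eq_div_iff (by positivity)]
    exact hy_diff c a' b'
  have k1 : (a + b) / (hy c a + hy c b) < b / hy c b := by
    rw [div_lt_div_iff₀ (by positivity) pb]
    nlinarith
  have k2 : b / hy c b ≤ a' / hy c a' := by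
    rw [div_le_div_iff₀ pb pa']
    linarith
  have k3 : a' / hy c a' < (a' + b') / (hy c a' + hy c b') := by
    rw [div_lt_div_iff₀ pa' (by positivity)]
    nlinarith
  have k4 : (a + b) / (hy c a + hy c b) < (a' + b') / (hy c a' + hy c b') := by linarith
  rw [e1, e2]
  have : 0 < (b - a) * (b' - a') := mul_pos (by linarith) (by linarith)
  nlinarith

theorem diff_le {c : ℝ} (hc : c ≠ 0) {a b : ℝ} (h1 : a < b) : |hy c b - hy c a| ≤ b - a := by
  have pa := hy_pos hc a
  have pb := hy_pos hc b
  have h2 : |hy c b - hy c a| * (hy c a + hy c b) = (b - a) * |a + b| := by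
    have := congrArg abs (hy_diff c a b)
    rw [abs_mul, abs_mul, abs_of_pos (by linarith : 0 < hy c a + hy c b), abs_of_pos (by linarith : 0 < b - a)] at this
    exact this
  have h3 : |a + b| ≤ hy c a + hy c b :=
    (abs_add_le a b).trans (add_le_add (abs_le_hy c a) (abs_le_hy c b))
  have h4 : |hy c b - hy c a| * (hy c a + hy c b) ≤ (b - a) * (hy c a + hy c b) := by
    rw [h2]
    exact mul_le_mul_of_nonneg_left h3 (by linarith)
  exact le_of_mul_le_mul_right h4 (by linarith)

/-- the radicand -/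
def rad (v z c : ℕ) : ℕ := ((v : ℤ) - z).natAbs ^ 2 + c ^ 2

theorem sqrt_rad (v z c : ℕ) : √(rad v z c : ℝ) = hy c ((v : ℝ) - z) := by
  unfold rad hy
  congr 1
  push_cast
  rw [Nat.cast_natAbs, Int.cast_abs, sq_abs]
  push_cast
  ring

/-- at most `5 N / h` of the numbers below `N` have their radicand in the class of `d` -/
theorem count (N h c z d : ℕ) (hc : c ≠ 0) (h1 : 1 ≤ h) (hh : h ^ 3 ≤ N) :
    ((range N).filter fun v => sf (rad v z c) = d).card * h ≤ 5 * N := by
  classical
  set V := (range N).filter fun v => sf (rad v z c) = d with hV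
  set k := V.card with hk
  have hcR : (c : ℝ) ≠ 0 := by exact_mod_cast hc
  rcases Nat.eq_zero_or_pos k with h0 | h0
  · rw [h0]; omega
  set e : ℕ → ℕ := fun i => if hi : i < k then V.orderEmbOfFin rfl ⟨i, hi⟩ else 0 with he
  have he1 : ∀ i < k, e i ∈ V := by
    intro i hi
    rw [he]
    beta_reduce
    rw [dif_pos hi]
    exact Finset.orderEmbOfFin_mem V rfl _
  have he2 : ∀ i j, i < j → j < k → e i < e j := by
    intro i j hij hj
    rw [he]
    beta_reduce
    rw [dif_pos (hij.trans hj), dif_pos hj]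
    exact (V.orderEmbOfFin rfl).strictMono (by simpa using hij)
  set w : ℕ → ℤ := fun i => (rt (rad (e i) z c) : ℤ) with hw
  have hd1 : ∃ v, sf (rad v z c) = d := ⟨e 0, (Finset.mem_filter.1 (he1 0 h0)).2⟩
  have hd : 1 ≤ d := by
    obtain ⟨v, hv⟩ := hd1
    rw [← hv]
    exact Nat.one_le_iff_ne_zero.2 (sf_spec _).2.ne_zero
  have hsd : 1 ≤ √(d : ℝ) := by
    rw [Real.one_le_sqrt]
    exact_mod_cast hd
  have hwF : ∀ i < k, (w i : ℝ) * √(d : ℝ) = hy c ((e i : ℝ) - z) := by
    intro i hi
    have h2 := (Finset.mem_filter.1 (he1 i hi)).2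
    rw [← sqrt_rad, sqrt_cls (rad (e i) z c), h2, hw]
    push_cast
    rfl
  have hlt : ∀ i < k, e i < N := fun i hi => Finset.mem_range.1 (Finset.mem_filter.1 (he1 i hi)).1
  -- the difference vectors
  set δ : ℕ → ℕ := fun i => e (i + 1) - e i with hδ
  set Δ : ℕ → ℤ := fun i => w (i + 1) - w i with hΔ
  have hδR : ∀ i, i + 1 < k → (δ i : ℝ) = ((e (i + 1) : ℝ) - z) - ((e i : ℝ) - z) := by
    intro i hi
    have := he2 i (i + 1) (by omega) hi
    rw [hδ]
    beta_reduce
    rw [Nat.cast_sub this.le]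
    ring
  have hΔR : ∀ i, i + 1 < k → (Δ i : ℝ) * √(d : ℝ) =
      hy c ((e (i + 1) : ℝ) - z) - hy c ((e i : ℝ) - z) := by
    intro i hi
    rw [← hwF (i + 1) hi, ← hwF i (by omega), hΔ]
    push_cast
    ring
  have hinj : ∀ i j, i < j → j + 1 < k → (δ i, Δ i) ≠ (δ j, Δ j) := by
    intro i j hij hj heq
    have h2 : δ i = δ j := congrArg Prod.fst heq
    have h3 : Δ i = Δ j := congrArg Prod.snd heq
    have a1 : ((e i : ℝ) - z) < ((e (i + 1) : ℝ) - z) := by
      have := he2 i (i + 1) (by omega) (by omega)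
      have : (e i : ℝ) < e (i + 1) := by exact_mod_cast this
      linarith
    have a2 : ((e (i + 1) : ℝ) - z) ≤ ((e j : ℝ) - z) := by
      have h4 : e (i + 1) ≤ e j := by
        rcases Nat.eq_or_lt_of_le (show i + 1 ≤ j by omega) with h | h
        · rw [h]
        · exact (he2 _ _ h (by omega)).le
      have : (e (i + 1) : ℝ) ≤ e j := by exact_mod_cast h4
      linarith
    have a3 : ((e j : ℝ) - z) < ((e (j + 1) : ℝ) - z) := by
      have := he2 j (j + 1) (by omega) hj
      have : (e j : ℝ) < e (j + 1) := by exact_mod_cast this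
      linarith
    have h4 := slope_lt hcR a1 a2 a3
    rw [← hΔR i (by omega), ← hΔR j hj, ← hδR i (by omega), ← hδR j hj, h2, h3] at h4
    exact lt_irrefl _ h4
  have hΔle : ∀ i, i + 1 < k → |Δ i| ≤ δ i := by
    intro i hi
    have a1 : ((e i : ℝ) - z) < ((e (i + 1) : ℝ) - z) := by
      have := he2 i (i + 1) (by omega) (by omega)
      have : (e i : ℝ) < e (i + 1) := by exact_mod_cast this
      linarith
    have h2 := diff_le hcR a1
    rw [← hΔR i hi, ← hδR i hi, abs_mul, abs_of_nonneg (Real.sqrt_nonneg _)] at h2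
    have h3 : |(Δ i : ℝ)| ≤ δ i := by
      have : |(Δ i : ℝ)| * 1 ≤ |(Δ i : ℝ)| * √(d : ℝ) := mul_le_mul_of_nonneg_left hsd (abs_nonneg _)
      linarith
    exact_mod_cast h3
  have hδ1 : ∀ i, i + 1 < k → 1 ≤ δ i := by
    intro i hi
    have := he2 i (i + 1) (by omega) hi
    rw [hδ]
    beta_reduce
    omega
  -- the long differences
  have hsum : ∀ m, m < k → ∑ i ∈ range m, δ i = e m - e 0 := by
    intro m
    induction m with
    | zero => simp
    | succ m ih =>
      intro hm
      rw [Finset.sum_range_succ, ih (by omega)]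
      have h2 := he2 m (m + 1) (by omega) hm
      have h3 : e 0 ≤ e m := by
        rcases Nat.eq_zero_or_pos m with h | h
        · rw [h]
        · exact (he2 0 m h (by omega)).le
      rw [hδ]
      beta_reduce
      omega
  set A := (range (k - 1)).filter fun i => h < δ i with hA
  set B := (range (k - 1)).filter fun i => ¬ h < δ i with hB
  have hAB : A.card + B.card = k - 1 := by
    rw [hA, hB, Finset.card_filter_add_card_filter_not, Finset.card_range]
  have hAc : A.card * h ≤ N := by
    have h2 : A.card • h ≤ ∑ i ∈ A, δ i :=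
      Finset.card_nsmul_le_sum A δ h fun i hi => (Finset.mem_filter.1 hi).2.le
    have h3 : ∑ i ∈ A, δ i ≤ ∑ i ∈ range (k - 1), δ i :=
      Finset.sum_le_sum_of_subset (Finset.filter_subset _ _)
    rw [hsum (k - 1) (by omega)] at h3
    have h4 := hlt (k - 1) (by omega)
    rw [smul_eq_mul] at h2
    omega
  have hBc : B.card ≤ h * (2 * h + 1) := by
    have h2 : B.card ≤ ((Finset.Icc 1 h) ×ˢ (Finset.Icc (-(h : ℤ)) h)).card := by
      refine Finset.card_le_card_of_injOn (fun i => (δ i, Δ i)) ?_ ?_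
      · intro i hi
        have hi' := Finset.mem_filter.1 hi
        have hik : i + 1 < k := by
          have := Finset.mem_range.1 hi'.1
          omega
        have h3 := hΔle i hik
        have h4 := hδ1 i hik
        have h5 : δ i ≤ h := not_lt.1 hi'.2
        rw [abs_le] at h3
        rw [Finset.mem_coe, Finset.mem_product, Finset.mem_Icc, Finset.mem_Icc]
        refine ⟨⟨h4, h5⟩, ?_, ?_⟩
        · have : (δ i : ℤ) ≤ h := by exact_mod_cast h5
          show -(h : ℤ) ≤ Δ i
          omega
        · have : (δ i : ℤ) ≤ h := by exact_mod_cast h5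
          show Δ i ≤ (h : ℤ)
          omega
      · intro i hi j hj hij
        have hi' := Finset.mem_range.1 (Finset.mem_filter.1 hi).1
        have hj' := Finset.mem_range.1 (Finset.mem_filter.1 hj).1
        rcases lt_trichotomy i j with h3 | h3 | h3
        · exact absurd hij (hinj i j h3 (by omega))
        · exact h3
        · exact absurd hij.symm (hinj j i h3 (by omega))
    rw [Finset.card_product, Nat.card_Icc, Int.card_Icc] at h2
    have h3 : ((h : ℤ) + 1 - -(h : ℤ)).toNat = 2 * h + 1 := by omega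
    rw [h3] at h2
    simpa using h2
  have h2 : B.card * h ≤ 3 * N := by
    calc B.card * h ≤ h * (2 * h + 1) * h := Nat.mul_le_mul_right _ hBc
      _ ≤ 3 * h ^ 3 := by nlinarith [Nat.mul_le_mul h1 (le_refl (h * h))]
      _ ≤ 3 * N := Nat.mul_le_mul_left _ hh
  have h3 : h ≤ N := by
    calc h = h ^ 1 := (pow_one h).symm
      _ ≤ h ^ 3 := Nat.pow_le_pow_right h1 (by norm_num)
      _ ≤ N := hh
  have h4 : k = A.card + B.card + 1 := by omega
  rw [h4, add_mul, add_mul, one_mul]
  omega

end Pool.Agent.H84.TS
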