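import Pool.Agent.H84.TS.Conv

/-!
MP_3b0ce5_lc (shortest graphs on random points): for most positions of one vertex no shortest graph
has a length close to an integer.
-/

set_option autoImplicit false

namespace Pool.Agent.H84.TS

open Finset Pool.Agent.H92.SR

variable {n : ℕ}

/-- the square of the distance of the vertices `i` and `j` -/
def dd (x y : Fin n → ℕ) (i j : Fin n) : ℕ := ((x i : ℤ) - x j).natAbs ^ 2 + ((y i : ℤ) - y j).natAbs ^ 2

/-- the squares of the lengths of the edges of a graph, given by the list of its edges -/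
def lens (x y : Fin n → ℕ) (G : List (Fin n × Fin n)) : List ℕ := G.map fun e => dd x y e.1 e.2

/-- the length of a graph -/
noncomputable def len (x y : Fin n → ℕ) (G : List (Fin n × Fin n)) : ℝ :=
  ((lens x y G).map fun a : ℕ => √(a : ℝ)).sum

/-- the neighbours of `o`, with multiplicity -/
def nb (o : Fin n) (G : List (Fin n × Fin n)) : List (Fin n) :=
  G.filterMap fun e => if e.1 = o then some e.2 else if e.2 = o then some e.1 else none

/-- graphs (edges may be repeated) without loops, all degrees are between `1` and `D` -/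
def Deg (D : ℕ) (G : List (Fin n × Fin n)) : Prop :=
  (∀ e ∈ G, e.1 ≠ e.2) ∧ ∀ o, 1 ≤ (nb o G).length ∧ (nb o G).length ≤ D

/-- `G` is a shortest member of the family `F` -/
def Shortest (F : Set (List (Fin n × Fin n))) (x y : Fin n → ℕ) (G : List (Fin n × Fin n)) : Prop :=
  G ∈ F ∧ ∀ G' ∈ F, len x y G ≤ len x y G'

theorem dd_comm (x y : Fin n → ℕ) (i j : Fin n) : dd x y i j = dd x y j i := by
  unfold dd
  rw [← Int.natAbs_neg, neg_sub, ← Int.natAbs_neg ((y i : ℤ) - y j), neg_sub]

/-- the part of the length which depends on the vertex `o` -/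
noncomputable def loc (x y : Fin n → ℕ) (o : Fin n) (ν : List (Fin n)) : ℝ :=
  (ν.map fun t => √(dd x y o t : ℝ)).sum

/-- the edges which do not touch `o` -/
def away (o : Fin n) (G : List (Fin n × Fin n)) : List (Fin n × Fin n) :=
  G.filter fun e => e.1 ≠ o ∧ e.2 ≠ o

theorem len_split (x y : Fin n → ℕ) (o : Fin n) (G : List (Fin n × Fin n)) :
    len x y G = loc x y o (nb o G) + len x y (away o G) := by
  unfold len loc lens nb away
  induction G with
  | nil => simp
  | cons e G ih =>
    by_cases h1 : e.1 = o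
    · rw [List.filterMap_cons_some (b := e.2) (by simp [h1]), List.filter_cons_of_neg (by simp [h1])]
      simp only [List.map_cons, List.sum_cons]
      rw [ih, h1]
      ring
    · by_cases h2 : e.2 = o
      · rw [List.filterMap_cons_some (b := e.1) (by simp [h1, h2]), List.filter_cons_of_neg (by simp [h2])]
        simp only [List.map_cons, List.sum_cons]
        rw [ih, h2, dd_comm x y e.1 o]
        ring
      · rw [List.filterMap_cons_none (by simp [h1, h2]), List.filter_cons_of_pos (by simp [h1, h2])]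
        simp only [List.map_cons, List.sum_cons]
        rw [ih]
        ring

theorem away_update (x y : Fin n → ℕ) (o : Fin n) (v : ℕ) (G : List (Fin n × Fin n)) :
    len (Function.update x o v) y (away o G) = len x y (away o G) := by
  unfold len lens
  congr 2
  refine List.map_congr_left fun e he => ?_
  have h := List.of_mem_filter he
  simp only [ne_eq, Bool.decide_and, Bool.and_eq_true, decide_eq_true_eq] at h
  unfold dd
  rw [Function.update_of_ne h.1, Function.update_of_ne h.2]

theorem nb_ne {o : Fin n} {G : List (Fin n × Fin n)} (hG : ∀ e ∈ G, e.1 ≠ e.2) : ∀ t ∈ nb o G, t ≠ o := by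
  intro t ht
  unfold nb at ht
  rw [List.mem_filterMap] at ht
  obtain ⟨e, he, h⟩ := ht
  have h3 := hG e he
  by_cases h1 : e.1 = o
  · rw [if_pos h1] at h
    have h2 : e.2 = t := Option.some.inj h
    rw [← h2, ← h1]
    exact h3.symm
  · rw [if_neg h1] at h
    by_cases h2 : e.2 = o
    · rw [if_pos h2] at h
      have h4 : e.1 = t := Option.some.inj h
      rw [← h4]
      exact h1
    · rw [if_neg h2] at h
      cases h

theorem dd_update (x y : Fin n → ℕ) (o s : Fin n) (v : ℕ) (h : s ≠ o) :
    dd (Function.update x o v) y o s = rad v (x s) ((y o : ℤ) - y s).natAbs := by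
  unfold dd rad
  rw [Function.update_self, Function.update_of_ne h]

theorem dd_le {x y : Fin n → ℕ} {N : ℕ} (hx : ∀ i, x i < N) (hy : ∀ i, y i < N) (i j : Fin n) :
    dd x y i j ≤ 2 * N ^ 2 := by
  unfold dd
  have h1 := hx i
  have h2 := hx j
  have h3 := hy i
  have h4 := hy j
  have e1 : ((x i : ℤ) - x j).natAbs ≤ N := by omega
  have e2 : ((y i : ℤ) - y j).natAbs ≤ N := by omega
  have e3 := Nat.pow_le_pow_left e1 2
  have e4 := Nat.pow_le_pow_left e2 2
  omega

theorem sqrt_dd_le {x y : Fin n → ℕ} {N : ℕ} (hx : ∀ i, x i < N) (hy : ∀ i, y i < N) (i j : Fin n) :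
    √(dd x y i j : ℝ) ≤ 2 * N := by
  rw [Real.sqrt_le_left (by positivity)]
  have h1 : (dd x y i j : ℝ) ≤ ((2 * N ^ 2 : ℕ) : ℝ) := Nat.cast_le.2 (dd_le hx hy i j)
  push_cast at h1
  nlinarith [sq_nonneg (N : ℝ)]

theorem sum_le {α : Type} (f : α → ℝ) (B : ℝ) (l : List α) (h : ∀ t, f t ≤ B) : (l.map f).sum ≤ l.length * B := by
  induction l with
  | nil => simp
  | cons a l ih =>
    rw [List.map_cons, List.sum_cons, List.length_cons]
    push_cast
    have := h a
    linarith

theorem len_le {x y : Fin n → ℕ} {N : ℕ} (hx : ∀ i, x i < N) (hy : ∀ i, y i < N) (G : List (Fin n × Fin n)) :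
    len x y G ≤ G.length * (2 * N) := by
  unfold len lens
  rw [List.map_map]
  exact sum_le _ _ G fun e => sqrt_dd_le hx hy _ _

theorem length_le {D : ℕ} {G : List (Fin n × Fin n)} (hG : Deg D G) : G.length ≤ n * D := by
  classical
  have h1 : ∀ G : List (Fin n × Fin n), G.length ≤ ∑ o : Fin n, (nb o G).length := by
    intro G
    induction G with
    | nil => simp
    | cons e G ih =>
      have h2 : ∀ o : Fin n, (nb o (e :: G)).length = (nb o G).length + (if e.1 = o ∨ e.2 = o then 1 else 0) := by
        intro o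
        unfold nb
        by_cases h1 : e.1 = o
        · rw [List.filterMap_cons_some (b := e.2) (by simp [h1])]
          simp [h1]
        · by_cases h2 : e.2 = o
          · rw [List.filterMap_cons_some (b := e.1) (by simp [h1, h2])]
            simp [h2]
          · rw [List.filterMap_cons_none (by simp [h1, h2])]
            simp [h1, h2]
      rw [List.length_cons, Finset.sum_congr rfl fun o _ => h2 o, Finset.sum_add_distrib]
      have h3 : 1 ≤ ∑ o : Fin n, (if e.1 = o ∨ e.2 = o then 1 else 0) := by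
        refine le_trans ?_ (Finset.single_le_sum (f := fun o => if e.1 = o ∨ e.2 = o then 1 else 0)
          (fun o _ => Nat.zero_le _) (Finset.mem_univ e.1))
        simp
      omega
  refine (h1 G).trans ?_
  calc ∑ o : Fin n, (nb o G).length ≤ ∑ _o : Fin n, D := Finset.sum_le_sum fun o _ => (hG.2 o).2
    _ = n * D := by simp

theorem sf_sq (k : ℕ) : sf ((k + 1) ^ 2) = 1 := by
  obtain ⟨h1, h2⟩ := sf_spec ((k + 1) ^ 2)
  have h3 : rt ((k + 1) ^ 2) ∣ k + 1 := by
    rw [← Nat.pow_dvd_pow_iff (n := 2) (by norm_num)]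
    exact ⟨_, h1.symm⟩
  obtain ⟨r, hr⟩ := h3
  have hrt : rt ((k + 1) ^ 2) ≠ 0 := by
    intro h
    rw [h, zero_mul] at hr
    omega
  have h4 : sf ((k + 1) ^ 2) = r * r := by
    have h5 : rt ((k + 1) ^ 2) ^ 2 * sf ((k + 1) ^ 2) = rt ((k + 1) ^ 2) ^ 2 * (r * r) := by
      rw [h1]
      nth_rewrite 1 [hr]
      ring
    exact Nat.eq_of_mul_eq_mul_left (by positivity) h5
  rw [h4] at h2 ⊢
  have h6 : IsUnit r := h2 r dvd_rfl
  rw [Nat.isUnit_iff.1 h6]

theorem loc_sum (x y : Fin n → ℕ) (o : Fin n) (ν : List (Fin n)) (k : ℕ) :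
    ∑ j : Option (Fin ν.length), √((j.elim ((k + 1) ^ 2) fun i => dd x y o ν[i.1] : ℕ) : ℝ) =
      loc x y o ν + (k + 1) := by
  rw [Fintype.sum_option]
  simp only [Option.elim_none, Option.elim_some]
  push_cast
  rw [Real.sqrt_sq (by positivity), loc, add_comm]
  congr 1
  exact Fin.sum_univ_fun_getElem ν (fun t => √(dd x y o t : ℝ))

/-- the bad positions of the vertex `o` for a pattern of neighbours -/
theorem pat {D N h : ℕ} (hD : 1 ≤ D) (hn : 1 ≤ n) (h1 : 1 ≤ h) (hh : h ^ 3 ≤ N) {x y : Fin n → ℕ}
    (hx : ∀ i, x i < N) (hy : ∀ i, y i < N) (o : Fin n) (hyo : ∀ j, j ≠ o → y o ≠ y j)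
    (F : Set (List (Fin n × Fin n))) (hF : ∀ G ∈ F, Deg D G) (ν : List (Fin n)) {b : ℕ}
    (hb : 16 * (n * D * N) ≤ 2 ^ b) (V : Finset ℕ) (hV : V ⊆ range N)
    (hbad : ∀ v ∈ V, ∃ (k : ℕ) (G : List (Fin n × Fin n)), Shortest F (Function.update x o v) y G ∧
      nb o G = ν ∧ |len (Function.update x o v) y G - k| * 2 ^ (1 + b * 4 ^ (D + 1)) < 1) :
    V.card * h ≤ (D + 1) * (5 * N) := by
  classical
  rcases V.eq_empty_or_nonempty with hVe | ⟨v0, hv0⟩
  · rw [hVe]; simp
  obtain ⟨k0, G0, hS0, hν0, hl0⟩ := hbad v0 hv0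
  have hG0 := hF G0 hS0.1
  have hνo : ∀ t ∈ ν, t ≠ o := by rw [← hν0]; exact nb_ne hG0.1
  have hνD : ν.length ≤ D := by rw [← hν0]; exact (hG0.2 o).2
  have hν1 : 0 < ν.length := by rw [← hν0]; exact (hG0.2 o).1
  have hup : ∀ v ∈ V, ∀ i, Function.update x o v i < N := by
    intro v hv i
    by_cases hi : i = o
    · rw [hi, Function.update_self]
      exact mem_range.1 (hV hv)
    · rw [Function.update_of_ne hi]
      exact hx i
  have hddpos : ∀ v t, t ≠ o → 1 ≤ dd (Function.update x o v) y o t := by
    intro v t ht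
    have h2 := hyo t ht
    unfold dd
    have h3 : ((y o : ℤ) - y t).natAbs ≠ 0 := by omega
    have h4 : 1 ≤ ((y o : ℤ) - y t).natAbs ^ 2 := Nat.one_le_iff_ne_zero.2 (by positivity)
    omega
  have hN1 : 1 ≤ N := by
    have := mem_range.1 (hV hv0)
    omega
  set s := ν[0] with hs
  have hso : s ≠ o := hνo s (List.getElem_mem _)
  set c := ((y o : ℤ) - y s).natAbs with hc
  have hc0 : c ≠ 0 := by
    have h2 := hyo s hso
    omega
  have key : ∀ v ∈ V, ∃ i : Option (Fin ν.length), sf (rad v (x s) c) =
      i.elim 1 fun i => sf (dd (Function.update x o v0) y o ν[i.1]) := by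
    intro v hv
    obtain ⟨k, G, hS, hν, hl⟩ := hbad v hv
    have hG := hF G hS.1
    have e1 := len_split (Function.update x o v) y o G
    have e2 := len_split (Function.update x o v0) y o G0
    have e3 := len_split (Function.update x o v) y o G0
    have e4 := len_split (Function.update x o v0) y o G
    rw [hν, away_update] at e1 e4
    rw [hν0, away_update] at e2 e3
    have e5 := hS.2 G0 hS0.1
    have e6 := hS0.2 G hS.1
    rw [e1, e3] at e5
    rw [e2, e4] at e6
    have hR : len x y (away o G) = len x y (away o G0) := le_antisymm (by linarith) (by linarith)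
    have hpow : (2 : ℝ) ^ (1 + b * 4 ^ (D + 1)) = 2 * (2 ^ b) ^ 4 ^ (D + 1) := by rw [pow_add, pow_one, pow_mul]
    have hB1 : (1 : ℝ) ≤ 2 ^ b := one_le_pow₀ (by norm_num)
    have hB0 : (0 : ℝ) < 2 * (2 ^ b) ^ 4 ^ (D + 1) := by positivity
    have hB2 : (1 : ℝ) ≤ 2 * (2 ^ b) ^ 4 ^ (D + 1) := by
      have := one_le_pow₀ (n := 4 ^ (D + 1)) hB1
      linarith
    rw [hpow] at hl hl0
    have hu1 : |len (Function.update x o v) y G - k| < 1 := by
      by_contra hcon
      rw [not_lt] at hcon
      have := mul_le_mul hcon hB2 zero_le_one (abs_nonneg _)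
      linarith
    have hu2 : |len (Function.update x o v0) y G0 - k0| < 1 := by
      by_contra hcon
      rw [not_lt] at hcon
      have := mul_le_mul hcon hB2 zero_le_one (abs_nonneg _)
      linarith
    have hlenb : ∀ v ∈ V, ∀ G, Deg D G → len (Function.update x o v) y G ≤ n * D * (2 * N) := by
      intro v hv G hG
      have a1 := len_le (hup v hv) hy G
      have a2 : (G.length : ℝ) ≤ n * D := by exact_mod_cast length_le hG
      have a3 : (0 : ℝ) ≤ 2 * N := by positivity
      exact a1.trans (mul_le_mul_of_nonneg_right a2 a3)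
    have hkle : (k : ℝ) ≤ n * D * (2 * N) + 1 := by
      have a1 := hlenb v hv G hG
      have a2 := abs_lt.1 hu1
      linarith
    have hk0le : (k0 : ℝ) ≤ n * D * (2 * N) + 1 := by
      have a1 := hlenb v0 hv0 G0 hG0
      have a2 := abs_lt.1 hu2
      linarith
    have hlocb : ∀ v ∈ V, loc (Function.update x o v) y o ν ≤ D * (2 * N) := by
      intro v hv
      have a1 := sum_le (fun t => √(dd (Function.update x o v) y o t : ℝ)) (2 * N) ν
        fun t => sqrt_dd_le (hup v hv) hy o t
      have a2 : (ν.length : ℝ) ≤ D := by exact_mod_cast hνD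
      have a3 : (0 : ℝ) ≤ 2 * N := by positivity
      exact a1.trans (mul_le_mul_of_nonneg_right a2 a3)
    rw [e1] at hl
    rw [e2, ← hR] at hl0
    set a : Option (Fin ν.length) → ℕ := fun j => j.elim ((k0 + 1) ^ 2) fun i =>
      dd (Function.update x o v) y o ν[i.1] with ha
    set a' : Option (Fin ν.length) → ℕ := fun j => j.elim ((k + 1) ^ 2) fun i =>
      dd (Function.update x o v0) y o ν[i.1] with ha'
    have hs1 : ∑ j, √(a j : ℝ) = loc (Function.update x o v) y o ν + (k0 + 1) := loc_sum _ _ _ _ _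
    have hs2 : ∑ j, √(a' j : ℝ) = loc (Function.update x o v0) y o ν + (k + 1) := loc_sum _ _ _ _ _
    have heq : ∑ j, √(a j : ℝ) = ∑ j, √(a' j : ℝ) := by
      by_contra hne
      have hnDN : (1 : ℝ) ≤ n * D * N := by
        exact_mod_cast Nat.one_le_iff_ne_zero.2 (by positivity : n * D * N ≠ 0)
      have hDN : (D : ℝ) * N ≤ n * D * N := by
        have : D * N ≤ n * D * N := by
          calc D * N = 1 * (D * N) := (one_mul _).symm
            _ ≤ n * (D * N) := Nat.mul_le_mul_right _ hn
            _ = n * D * N := by ring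
        exact_mod_cast this
      have hbR : (16 : ℝ) * (n * D * N) ≤ 2 ^ b := by exact_mod_cast hb
      have hsum : ∑ j, √(a j : ℝ) + ∑ j, √(a' j : ℝ) ≤ 2 ^ b := by
        rw [hs1, hs2]
        have a1 := hlocb v hv
        have a2 := hlocb v0 hv0
        nlinarith
      have h2 := cls_sep hne hB1 hsum
      have h3 : ∑ j, √(a j : ℝ) - ∑ j, √(a' j : ℝ) =
          (loc (Function.update x o v) y o ν + len x y (away o G) - k) -
          (loc (Function.update x o v0) y o ν + len x y (away o G) - k0) := by
        rw [hs1, hs2]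
        ring
      rw [h3] at h2
      set u := loc (Function.update x o v) y o ν + len x y (away o G) - k with hu
      set u0 := loc (Function.update x o v0) y o ν + len x y (away o G) - k0 with hu0
      have h4 : |u - u0| ≤ |u| + |u0| := abs_sub _ _
      have h5 : |u - u0| * (2 * (2 ^ b) ^ 4 ^ (D + 1)) < 2 := by
        have := mul_le_mul_of_nonneg_right h4 hB0.le
        linarith
      have h6 : ((2 : ℝ) ^ b) ^ (2 ^ (2 * Fintype.card (Option (Fin ν.length))) - 1) ≤ (2 ^ b) ^ 4 ^ (D + 1) := by
        refine pow_le_pow_right₀ hB1 ((Nat.sub_le _ _).trans ?_)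
        rw [Fintype.card_option, Fintype.card_fin, pow_mul]
        exact Nat.pow_le_pow_right (by norm_num) (by omega)
      have h7 := mul_le_mul_of_nonneg_left h6 (abs_nonneg (u - u0))
      linarith
    have ha1 : ∀ j, 1 ≤ a j := by
      intro j
      cases j with
      | none => exact Nat.one_le_iff_ne_zero.2 (by simp [ha])
      | some i => exact hddpos v _ (hνo _ (List.getElem_mem _))
    have ha1' : ∀ j, 1 ≤ a' j := by
      intro j
      cases j with
      | none => exact Nat.one_le_iff_ne_zero.2 (by simp [ha'])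
      | some i => exact hddpos v0 _ (hνo _ (List.getElem_mem _))
    obtain ⟨i, hi⟩ := cls_eq ha1 ha1' heq (some ⟨0, hν1⟩)
    have hi0 : a (some ⟨0, hν1⟩) = rad v (x s) c := dd_update x y o s v hso
    rw [hi0] at hi
    refine ⟨i, ?_⟩
    cases i with
    | none => exact hi.trans (sf_sq k)
    | some i => exact hi
  have hsub : V ⊆ (univ : Finset (Option (Fin ν.length))).biUnion fun i => (range N).filter fun v =>
      sf (rad v (x s) c) = i.elim 1 fun i => sf (dd (Function.update x o v0) y o ν[i.1]) := by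
    intro v hv
    obtain ⟨i, hi⟩ := key v hv
    rw [mem_biUnion]
    exact ⟨i, mem_univ _, mem_filter.2 ⟨hV hv, hi⟩⟩
  have c4 := (Finset.card_le_card hsub).trans Finset.card_biUnion_le
  calc V.card * h ≤ (∑ i : Option (Fin ν.length), ((range N).filter fun v =>
        sf (rad v (x s) c) = i.elim 1 fun i => sf (dd (Function.update x o v0) y o ν[i.1])).card) * h :=
        Nat.mul_le_mul_right _ c4
    _ = ∑ i : Option (Fin ν.length), ((range N).filter fun v =>
        sf (rad v (x s) c) = i.elim 1 fun i => sf (dd (Function.update x o v0) y o ν[i.1])).card * h :=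
        Finset.sum_mul _ _ _
    _ ≤ ∑ _i : Option (Fin ν.length), 5 * N := Finset.sum_le_sum fun i _ => count N h c (x s) _ hc0 h1 hh
    _ = (ν.length + 1) * (5 * N) := by simp
    _ ≤ (D + 1) * (5 * N) := Nat.mul_le_mul_right _ (by omega)

end Pool.Agent.H84.TS
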