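import Pool.Agent.H84.TS.Gr

/-!
MP_3b0ce5_lc (shortest graphs on random points): independent sets of vertices and the length of a
graph.
-/

set_option autoImplicit false

namespace Pool.Agent.H84.TS

open Finset

private theorem mem_nb {n : ℕ} {o t : Fin n} {G : List (Fin n × Fin n)} :
    t ∈ nb o G ↔ ∃ e ∈ G, (e.1 = o ∧ e.2 = t) ∨ (e.1 ≠ o ∧ e.2 = o ∧ e.1 = t) := by
  unfold nb
  rw [List.mem_filterMap]
  constructor
  · rintro ⟨e, he, h⟩
    refine ⟨e, he, ?_⟩
    by_cases h1 : e.1 = o
    · rw [if_pos h1] at h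
      exact Or.inl ⟨h1, Option.some.inj h⟩
    · rw [if_neg h1] at h
      by_cases h2 : e.2 = o
      · rw [if_pos h2] at h
        exact Or.inr ⟨h1, h2, Option.some.inj h⟩
      · rw [if_neg h2] at h
        cases h
  · rintro ⟨e, he, ⟨h1, h2⟩ | ⟨h1, h2, h3⟩⟩
    · exact ⟨e, he, by rw [if_pos h1, h2]⟩
    · exact ⟨e, he, by rw [if_neg h1, if_pos h2, h3]⟩

private theorem nb_symm {n : ℕ} {o t : Fin n} {G : List (Fin n × Fin n)}
    (hG : ∀ e ∈ G, e.1 ≠ e.2) (h : t ∈ nb o G) : o ∈ nb t G := by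
  rw [mem_nb] at h ⊢
  obtain ⟨e, he, ⟨h1, h2⟩ | ⟨h1, h2, h3⟩⟩ := h
  · refine ⟨e, he, Or.inr ⟨?_, h2, h1⟩⟩
    intro h3
    exact hG e he (h3.trans h2.symm)
  · exact ⟨e, he, Or.inl ⟨h3, h2⟩⟩

theorem indep {n D : ℕ} {G : List (Fin n × Fin n)} (hG : Deg D G) (m : ℕ) (O : Finset (Fin n))
    (hO : m * (D + 1) ≤ O.card) :
    ∃ I ⊆ O, I.card = m ∧ ∀ o ∈ I, ∀ t ∈ nb o G, t ∉ I := by
  classical
  induction m generalizing O with
  | zero => exact ⟨∅, Finset.empty_subset _, Finset.card_empty, fun o ho => absurd ho (Finset.notMem_empty o)⟩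
  | succ m ih =>
    have hne : O.Nonempty := by
      rw [← Finset.card_pos]
      have : 0 < (m + 1) * (D + 1) := by positivity
      omega
    obtain ⟨o, ho⟩ := hne
    obtain ⟨R, hR⟩ : ∃ R : Finset (Fin n), R = insert o (nb o G).toFinset := ⟨_, rfl⟩
    have hRc : R.card ≤ D + 1 := by
      rw [hR]
      refine (Finset.card_insert_le _ _).trans ?_
      have h1 := List.toFinset_card_le (nb o G)
      have h2 := (hG.2 o).2
      omega
    have hO' : m * (D + 1) ≤ (O \ R).card := by
      have h1 := Finset.le_card_sdiff R O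
      have h2 : (m + 1) * (D + 1) = m * (D + 1) + (D + 1) := by ring
      omega
    obtain ⟨I, hI, hIc, hind⟩ := ih (O \ R) hO'
    have hIR : ∀ t ∈ I, t ∉ R := fun t ht => (Finset.mem_sdiff.1 (hI ht)).2
    have hoR : o ∈ R := by
      rw [hR]
      exact Finset.mem_insert_self _ _
    have hoI : o ∉ I := fun h => hIR o h hoR
    have hnbR : ∀ t ∈ nb o G, t ∈ R := by
      intro t ht
      rw [hR]
      exact Finset.mem_insert_of_mem (List.mem_toFinset.2 ht)
    refine ⟨insert o I, ?_, ?_, ?_⟩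
    · intro t ht
      rcases Finset.mem_insert.1 ht with h | h
      · rw [h]
        exact ho
      · exact (Finset.mem_sdiff.1 (hI h)).1
    · rw [Finset.card_insert_of_notMem hoI, hIc]
    · intro o' ho' t ht htI
      rcases Finset.mem_insert.1 ho' with h | h
      · rw [h] at ht
        rcases Finset.mem_insert.1 htI with h2 | h2
        · exact nb_ne hG.1 t ht h2
        · exact hIR t h2 (hnbR t ht)
      · rcases Finset.mem_insert.1 htI with h2 | h2
        · rw [h2] at ht
          exact hIR o' h (hnbR o' (nb_symm hG.1 ht))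
        · exact hind o' h t ht h2

private theorem loc_cons {n : ℕ} (x y : Fin n → ℕ) (o : Fin n) (e : Fin n × Fin n)
    (G : List (Fin n × Fin n)) : loc x y o (nb o (e :: G)) = loc x y o (nb o G) +
      (if e.1 = o then √(dd x y e.1 e.2 : ℝ) else if e.2 = o then √(dd x y e.1 e.2 : ℝ) else 0) := by
  unfold loc nb
  by_cases h1 : e.1 = o
  · rw [List.filterMap_cons_some (b := e.2) (by simp [h1]), if_pos h1]
    simp only [List.map_cons, List.sum_cons]
    rw [h1]
    ring
  · by_cases h2 : e.2 = o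
    · rw [List.filterMap_cons_some (b := e.1) (by simp [h1, h2]), if_neg h1, if_pos h2]
      simp only [List.map_cons, List.sum_cons]
      rw [h2, dd_comm x y e.1 o]
      ring
    · rw [List.filterMap_cons_none (by simp [h1, h2]), if_neg h1, if_neg h2, add_zero]

theorem len_splitI {n : ℕ} (x y : Fin n → ℕ) (I : Finset (Fin n)) (G : List (Fin n × Fin n))
    (hI : ∀ o ∈ I, ∀ t ∈ nb o G, t ∉ I) :
    len x y G = (∑ o ∈ I, loc x y o (nb o G)) + len x y (G.filter fun e => e.1 ∉ I ∧ e.2 ∉ I) := by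
  induction G with
  | nil => simp [len, lens, loc, nb]
  | cons e G ih =>
    have hsub : ∀ o : Fin n, ∀ t ∈ nb o G, t ∈ nb o (e :: G) := by
      intro o t ht
      rw [mem_nb] at ht ⊢
      obtain ⟨f, hf, h⟩ := ht
      exact ⟨f, List.mem_cons_of_mem _ hf, h⟩
    have ih' := ih fun o ho t ht => hI o ho t (hsub o t ht)
    have hlen : len x y (e :: G) = √(dd x y e.1 e.2 : ℝ) + len x y G := by
      unfold len lens
      simp only [List.map_cons, List.sum_cons]
    rw [hlen, ih', Finset.sum_congr rfl fun o _ => loc_cons x y o e G, Finset.sum_add_distrib]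
    by_cases h1 : e.1 ∈ I
    · have h2 : e.2 ∉ I := hI e.1 h1 e.2 (mem_nb.2 ⟨e, List.mem_cons_self, Or.inl ⟨rfl, rfl⟩⟩)
      have h3 : ∑ o ∈ I, (if e.1 = o then √(dd x y e.1 e.2 : ℝ) else
          if e.2 = o then √(dd x y e.1 e.2 : ℝ) else 0) = √(dd x y e.1 e.2 : ℝ) := by
        rw [Finset.sum_eq_single_of_mem e.1 h1, if_pos rfl]
        intro o ho hne
        rw [if_neg (fun h => hne h.symm), if_neg (fun h => h2 (by rw [h]; exact ho))]
      rw [h3, List.filter_cons_of_neg (by simp [h1])]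
      ring
    · by_cases h2 : e.2 ∈ I
      · have h3 : ∑ o ∈ I, (if e.1 = o then √(dd x y e.1 e.2 : ℝ) else
            if e.2 = o then √(dd x y e.1 e.2 : ℝ) else 0) = √(dd x y e.1 e.2 : ℝ) := by
          have h4 : e.1 ≠ e.2 := fun h => h1 (by rw [h]; exact h2)
          rw [Finset.sum_eq_single_of_mem e.2 h2, if_neg h4, if_pos rfl]
          intro o ho hne
          rw [if_neg (fun h => h1 (by rw [h]; exact ho)), if_neg (fun h => hne h.symm)]
        rw [h3, List.filter_cons_of_neg (by simp [h2])]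
        ring
      · have h3 : ∑ o ∈ I, (if e.1 = o then √(dd x y e.1 e.2 : ℝ) else
            if e.2 = o then √(dd x y e.1 e.2 : ℝ) else 0) = 0 := by
          refine Finset.sum_eq_zero fun o ho => ?_
          rw [if_neg (fun h => h1 (by rw [h]; exact ho)), if_neg (fun h => h2 (by rw [h]; exact ho))]
        rw [h3, List.filter_cons_of_pos (by simp [h1, h2])]
        have h5 : len x y (e :: G.filter fun e => e.1 ∉ I ∧ e.2 ∉ I) =
            √(dd x y e.1 e.2 : ℝ) + len x y (G.filter fun e => e.1 ∉ I ∧ e.2 ∉ I) := by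
          unfold len lens
          simp only [List.map_cons, List.sum_cons]
        rw [h5]
        ring

end Pool.Agent.H84.TS
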