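import Pool.Agent.H84.TS.Av

/-!
MP_3b0ce5_lc (shortest graphs on random points): a set `I` of free vertices.
-/

set_option autoImplicit false

namespace Pool.Agent.H84.TS

open Finset Pool.Agent.H92.SR

variable {n : ℕ}

/-- the coordinates `z` on `I` and `x` elsewhere -/
def mix (I : Finset (Fin n)) (z x : Fin n → ℕ) : Fin n → ℕ := fun i => if i ∈ I then z i else x i

/-- the edges which do not touch `I` -/
def awayI (I : Finset (Fin n)) (G : List (Fin n × Fin n)) : List (Fin n × Fin n) :=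
  G.filter fun e => e.1 ∉ I ∧ e.2 ∉ I

theorem awayI_mix (I : Finset (Fin n)) (z x y : Fin n → ℕ) (G : List (Fin n × Fin n)) :
    len (mix I z x) y (awayI I G) = len x y (awayI I G) := by
  unfold len lens
  congr 2
  refine List.map_congr_left fun e he => ?_
  have h := List.of_mem_filter he
  simp only [Bool.decide_and, Bool.and_eq_true, decide_eq_true_eq] at h
  unfold dd mix
  rw [if_neg h.1, if_neg h.2]

theorem dd_mix (I : Finset (Fin n)) (z x y : Fin n → ℕ) {o s : Fin n} (ho : o ∈ I) (hs : s ∉ I) :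
    dd (mix I z x) y o s = rad (z o) (x s) ((y o : ℤ) - y s).natAbs := by
  unfold dd rad mix
  rw [if_pos ho, if_neg hs]

/-- the index set of the local roots and the integer -/
abbrev JJ (I : Finset (Fin n)) (ν : Fin n → List (Fin n)) : Type :=
  Option ((o : {o // o ∈ I}) × Fin (ν o.1).length)

theorem card_JJ {I : Finset (Fin n)} {ν : Fin n → List (Fin n)} {D : ℕ} (h : ∀ o ∈ I, (ν o).length ≤ D) :
    Fintype.card (JJ I ν) ≤ D * I.card + 1 := by
  rw [Fintype.card_option, Fintype.card_sigma]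
  have : ∑ o : {o // o ∈ I}, Fintype.card (Fin (ν o.1).length) ≤ ∑ _o : {o // o ∈ I}, D := by
    refine Finset.sum_le_sum fun o _ => ?_
    rw [Fintype.card_fin]
    exact h o.1 o.2
  rw [Finset.sum_const, smul_eq_mul, Finset.card_univ, Fintype.card_coe, mul_comm] at this
  omega

theorem loc_sumI (x y : Fin n → ℕ) (I : Finset (Fin n)) (ν : Fin n → List (Fin n)) (k : ℕ) :
    ∑ j : JJ I ν, √((j.elim ((k + 1) ^ 2) fun p => dd x y p.1.1 (ν p.1.1)[p.2.1] : ℕ) : ℝ) =
      (∑ o ∈ I, loc x y o (ν o)) + (k + 1) := by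
  rw [Fintype.sum_option]
  simp only [Option.elim_none, Option.elim_some]
  push_cast
  rw [Real.sqrt_sq (by positivity), add_comm]
  congr 1
  rw [Fintype.sum_sigma, ← Finset.sum_coe_sort I fun o => loc x y o (ν o)]
  refine Finset.sum_congr rfl fun o _ => ?_
  exact Fin.sum_univ_fun_getElem (ν o.1) (fun t => √(dd x y o.1 t : ℝ))

theorem headD_get {α : Type} (l : List α) (d : α) (h : 0 < l.length) : l.headD d = l[0] := by
  cases l with
  | nil => simp at h
  | cons a l => rfl

/-- the bad positions of the vertices of `I` for a pattern of neighbours -/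
theorem patI {D N h : ℕ} (hD : 1 ≤ D) (hn : 1 ≤ n) (h1 : 1 ≤ h) (hh : h ^ 3 ≤ N) {x y : Fin n → ℕ}
    (hx : ∀ i, x i < N) (hy : ∀ i, y i < N) (I : Finset (Fin n)) (hyo : ∀ o ∈ I, ∀ j, j ≠ o → y o ≠ y j)
    (F : Set (List (Fin n × Fin n))) (hF : ∀ G ∈ F, Deg D G) (ν : Fin n → List (Fin n)) {b : ℕ}
    (hb : 16 * (n * D * N) ≤ 2 ^ b) (V : Finset (Fin n → ℕ)) (hV : V ⊆ bxx n N)
    (hspl : ∀ (x : Fin n → ℕ) (G : List (Fin n × Fin n)), (∀ o ∈ I, ∀ t ∈ nb o G, t ∉ I) →
      len x y G = (∑ o ∈ I, loc x y o (nb o G)) + len x y (awayI I G))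
    (hbad : ∀ z ∈ V, ∃ (k : ℕ) (G : List (Fin n × Fin n)), Shortest F (mix I z x) y G ∧
      (∀ o ∈ I, nb o G = ν o) ∧ (∀ o ∈ I, ∀ t ∈ nb o G, t ∉ I) ∧
      |len (mix I z x) y G - k| * 2 ^ (1 + b * 4 ^ (D * I.card + 1)) < 1) :
    V.card * h ^ I.card ≤ (5 * (D * I.card + 1)) ^ I.card * N ^ n := by
  classical
  rcases V.eq_empty_or_nonempty with hVe | ⟨z0, hz0⟩
  · rw [hVe]; simp
  obtain ⟨k0, G0, hS0, hν0, hi0, hl0⟩ := hbad z0 hz0
  have hG0 := hF G0 hS0.1
  have hνI : ∀ o ∈ I, ∀ t ∈ ν o, t ∉ I := fun o ho t ht => hi0 o ho t (by rw [hν0 o ho]; exact ht)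
  have hνne : ∀ o ∈ I, ∀ t ∈ ν o, t ≠ o := fun o ho t ht h2 => hνI o ho t ht (h2 ▸ ho)
  have hνD : ∀ o ∈ I, (ν o).length ≤ D := fun o ho => by rw [← hν0 o ho]; exact (hG0.2 o).2
  have hν1 : ∀ o ∈ I, 0 < (ν o).length := fun o ho => by rw [← hν0 o ho]; exact (hG0.2 o).1
  have hcard := card_JJ hνD
  have hup : ∀ z ∈ V, ∀ i, mix I z x i < N := by
    intro z hz i
    unfold mix
    split_ifs
    · exact mem_bxx.1 (hV hz) i
    · exact hx i
  have hddpos : ∀ z, ∀ o ∈ I, ∀ t, t ≠ o → 1 ≤ dd (mix I z x) y o t := by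
    intro z o ho t ht
    have h2 := hyo o ho t ht
    unfold dd
    have h3 : ((y o : ℤ) - y t).natAbs ≠ 0 := by omega
    have h4 : 1 ≤ ((y o : ℤ) - y t).natAbs ^ 2 := Nat.one_le_iff_ne_zero.2 (by positivity)
    omega
  have hN1 : 1 ≤ N := by
    have := hx ⟨0, hn⟩
    omega
  set cl : JJ I ν → ℕ := fun i => i.elim 1 fun p => sf (dd (mix I z0 x) y p.1.1 (ν p.1.1)[p.2.1]) with hcl
  set s : Fin n → Fin n := fun o => (ν o).headD o with hs
  have hsget : ∀ o (ho : o ∈ I), s o = (ν o)[0]'(hν1 o ho) := fun o ho => headD_get _ _ (hν1 o ho)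
  have hsI : ∀ o ∈ I, s o ∉ I := fun o ho => by rw [hsget o ho]; exact hνI o ho _ (List.getElem_mem _)
  have hso : ∀ o ∈ I, s o ≠ o := fun o ho h2 => hsI o ho (by rw [h2]; exact ho)
  have key : ∀ z ∈ V, ∀ o ∈ I, ∃ i : JJ I ν, sf (rad (z o) (x (s o)) ((y o : ℤ) - y (s o)).natAbs) = cl i := by
    intro z hz o ho
    obtain ⟨k, G, hS, hν, hi, hl⟩ := hbad z hz
    have hG := hF G hS.1
    have e1 := hspl (mix I z x) G hi
    have e2 := hspl (mix I z0 x) G0 hi0
    have e3 := hspl (mix I z x) G0 hi0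
    have e4 := hspl (mix I z0 x) G hi
    rw [Finset.sum_congr rfl fun o ho => by rw [hν o ho], awayI_mix] at e1 e4
    rw [Finset.sum_congr rfl fun o ho => by rw [hν0 o ho], awayI_mix] at e2 e3
    have e5 := hS.2 G0 hS0.1
    have e6 := hS0.2 G hS.1
    rw [e1, e3] at e5
    rw [e2, e4] at e6
    have hR : len x y (awayI I G) = len x y (awayI I G0) := le_antisymm (by linarith) (by linarith)
    set E := 4 ^ (D * I.card + 1) with hE
    have hpow : (2 : ℝ) ^ (1 + b * E) = 2 * (2 ^ b) ^ E := by rw [pow_add, pow_one, pow_mul]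
    have hB1 : (1 : ℝ) ≤ 2 ^ b := one_le_pow₀ (by norm_num)
    have hB0 : (0 : ℝ) < 2 * (2 ^ b) ^ E := by positivity
    have hB2 : (1 : ℝ) ≤ 2 * (2 ^ b) ^ E := by
      have := one_le_pow₀ (n := E) hB1
      linarith
    rw [hpow] at hl hl0
    have hu1 : |len (mix I z x) y G - k| < 1 := by
      by_contra hcon
      rw [not_lt] at hcon
      have := mul_le_mul hcon hB2 zero_le_one (abs_nonneg _)
      linarith
    have hu2 : |len (mix I z0 x) y G0 - k0| < 1 := by
      by_contra hcon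
      rw [not_lt] at hcon
      have := mul_le_mul hcon hB2 zero_le_one (abs_nonneg _)
      linarith
    have hlenb : ∀ z ∈ V, ∀ G, Deg D G → len (mix I z x) y G ≤ n * D * (2 * N) := by
      intro z hz G hG
      have a1 := len_le (hup z hz) hy G
      have a2 : (G.length : ℝ) ≤ n * D := by exact_mod_cast length_le hG
      have a3 : (0 : ℝ) ≤ 2 * N := by positivity
      exact a1.trans (mul_le_mul_of_nonneg_right a2 a3)
    have hkle : (k : ℝ) ≤ n * D * (2 * N) + 1 := by
      have a1 := hlenb z hz G hG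
      have a2 := abs_lt.1 hu1
      linarith
    have hk0le : (k0 : ℝ) ≤ n * D * (2 * N) + 1 := by
      have a1 := hlenb z0 hz0 G0 hG0
      have a2 := abs_lt.1 hu2
      linarith
    have hlocb : ∀ z ∈ V, ∑ o ∈ I, loc (mix I z x) y o (ν o) ≤ n * D * (2 * N) := by
      intro z hz
      have a3 : (0 : ℝ) ≤ 2 * N := by positivity
      calc ∑ o ∈ I, loc (mix I z x) y o (ν o) ≤ ∑ _o ∈ I, (D : ℝ) * (2 * N) := by
            refine Finset.sum_le_sum fun o ho => ?_
            have a1 := sum_le (fun t => √(dd (mix I z x) y o t : ℝ)) (2 * N) (ν o)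
              fun t => sqrt_dd_le (hup z hz) hy o t
            have a2 : ((ν o).length : ℝ) ≤ D := by exact_mod_cast hνD o ho
            exact a1.trans (mul_le_mul_of_nonneg_right a2 a3)
        _ = I.card * (D * (2 * N)) := by simp
        _ ≤ n * (D * (2 * N)) := by
            have a4 : (I.card : ℝ) ≤ n := by
              have := Finset.card_le_univ I
              rw [Fintype.card_fin] at this
              exact_mod_cast this
            exact mul_le_mul_of_nonneg_right a4 (by positivity)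
        _ = n * D * (2 * N) := by ring
    rw [e1] at hl
    rw [e2, ← hR] at hl0
    set a : JJ I ν → ℕ := fun j => j.elim ((k0 + 1) ^ 2) fun p => dd (mix I z x) y p.1.1 (ν p.1.1)[p.2.1] with ha
    set a' : JJ I ν → ℕ := fun j => j.elim ((k + 1) ^ 2) fun p => dd (mix I z0 x) y p.1.1 (ν p.1.1)[p.2.1] with ha'
    have hs1 : ∑ j, √(a j : ℝ) = (∑ o ∈ I, loc (mix I z x) y o (ν o)) + (k0 + 1) := loc_sumI _ _ _ _ _
    have hs2 : ∑ j, √(a' j : ℝ) = (∑ o ∈ I, loc (mix I z0 x) y o (ν o)) + (k + 1) := loc_sumI _ _ _ _ _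
    have heq : ∑ j, √(a j : ℝ) = ∑ j, √(a' j : ℝ) := by
      by_contra hne
      have hnDN : (1 : ℝ) ≤ n * D * N := by
        exact_mod_cast Nat.one_le_iff_ne_zero.2 (by positivity : n * D * N ≠ 0)
      have hbR : (16 : ℝ) * (n * D * N) ≤ 2 ^ b := by exact_mod_cast hb
      have hsum : ∑ j, √(a j : ℝ) + ∑ j, √(a' j : ℝ) ≤ 2 ^ b := by
        rw [hs1, hs2]
        have a1 := hlocb z hz
        have a2 := hlocb z0 hz0
        nlinarith
      have h2 := cls_sep hne hB1 hsum
      have h3 : ∑ j, √(a j : ℝ) - ∑ j, √(a' j : ℝ) =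
          ((∑ o ∈ I, loc (mix I z x) y o (ν o)) + len x y (awayI I G) - k) -
          ((∑ o ∈ I, loc (mix I z0 x) y o (ν o)) + len x y (awayI I G) - k0) := by
        rw [hs1, hs2]
        ring
      rw [h3] at h2
      set u := (∑ o ∈ I, loc (mix I z x) y o (ν o)) + len x y (awayI I G) - k with hu
      set u0 := (∑ o ∈ I, loc (mix I z0 x) y o (ν o)) + len x y (awayI I G) - k0 with hu0
      have h4 : |u - u0| ≤ |u| + |u0| := abs_sub _ _
      have h5 : |u - u0| * (2 * (2 ^ b) ^ E) < 2 := by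
        have := mul_le_mul_of_nonneg_right h4 hB0.le
        linarith
      have h6 : ((2 : ℝ) ^ b) ^ (2 ^ (2 * Fintype.card (JJ I ν)) - 1) ≤ (2 ^ b) ^ E := by
        refine pow_le_pow_right₀ hB1 ((Nat.sub_le _ _).trans ?_)
        rw [pow_mul, hE]
        exact Nat.pow_le_pow_right (by norm_num) hcard
      have h7 := mul_le_mul_of_nonneg_left h6 (abs_nonneg (u - u0))
      linarith
    have ha1 : ∀ j, 1 ≤ a j := by
      intro j
      cases j with
      | none => exact Nat.one_le_iff_ne_zero.2 (by simp [ha])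
      | some p => exact hddpos z _ p.1.2 _ (hνne _ p.1.2 _ (List.getElem_mem _))
    have ha1' : ∀ j, 1 ≤ a' j := by
      intro j
      cases j with
      | none => exact Nat.one_le_iff_ne_zero.2 (by simp [ha'])
      | some p => exact hddpos z0 _ p.1.2 _ (hνne _ p.1.2 _ (List.getElem_mem _))
    obtain ⟨i, hi⟩ := cls_eq ha1 ha1' heq (some ⟨⟨o, ho⟩, ⟨0, hν1 o ho⟩⟩)
    have hi0 : a (some ⟨⟨o, ho⟩, ⟨0, hν1 o ho⟩⟩) = rad (z o) (x (s o)) ((y o : ℤ) - y (s o)).natAbs := by
      rw [← dd_mix I z x y ho (hsI o ho), hsget o ho]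
      rfl
    rw [hi0] at hi
    refine ⟨i, ?_⟩
    cases i with
    | none => exact hi.trans (sf_sq k)
    | some p => exact hi
  set A : Fin n → Finset ℕ := fun o => (range N).filter fun v => ∃ i : JJ I ν,
    sf (rad v (x (s o)) ((y o : ℤ) - y (s o)).natAbs) = cl i with hA
  have hAc : ∀ o ∈ I, (A o).card * h ≤ 5 * (D * I.card + 1) * N := by
    intro o ho
    have hc0 : ((y o : ℤ) - y (s o)).natAbs ≠ 0 := by
      have h2 := hyo o ho (s o) (hso o ho)
      omega
    have hsub : A o ⊆ (univ : Finset (JJ I ν)).biUnion fun i => (range N).filter fun v =>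
        sf (rad v (x (s o)) ((y o : ℤ) - y (s o)).natAbs) = cl i := by
      intro v hv
      obtain ⟨hv1, i, hi⟩ := mem_filter.1 hv
      rw [mem_biUnion]
      exact ⟨i, mem_univ _, mem_filter.2 ⟨hv1, hi⟩⟩
    have c4 := (Finset.card_le_card hsub).trans Finset.card_biUnion_le
    calc (A o).card * h ≤ (∑ i : JJ I ν, ((range N).filter fun v =>
          sf (rad v (x (s o)) ((y o : ℤ) - y (s o)).natAbs) = cl i).card) * h := Nat.mul_le_mul_right _ c4
      _ = ∑ i : JJ I ν, ((range N).filter fun v =>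
          sf (rad v (x (s o)) ((y o : ℤ) - y (s o)).natAbs) = cl i).card * h := Finset.sum_mul _ _ _
      _ ≤ ∑ _i : JJ I ν, 5 * N := Finset.sum_le_sum fun i _ => count N h _ (x (s o)) _ hc0 h1 hh
      _ = Fintype.card (JJ I ν) * (5 * N) := by rw [Finset.sum_const, smul_eq_mul, Finset.card_univ]
      _ ≤ (D * I.card + 1) * (5 * N) := Nat.mul_le_mul_right _ hcard
      _ = 5 * (D * I.card + 1) * N := by ring
  have hVsub : V ⊆ Fintype.piFinset fun i => if i ∈ I then A i else range N := by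
    intro z hz
    rw [Fintype.mem_piFinset]
    intro i
    have hzi := mem_bxx.1 (hV hz) i
    split_ifs with hi
    · exact mem_filter.2 ⟨mem_range.2 hzi, key z hz i hi⟩
    · exact mem_range.2 hzi
  have hc := Finset.card_le_card hVsub
  rw [Fintype.card_piFinset] at hc
  have hprod : (∏ i, (if i ∈ I then h else 1)) = h ^ I.card := by
    rw [Finset.prod_ite_mem, Finset.univ_inter, Finset.prod_const]
  calc V.card * h ^ I.card ≤ (∏ i, (if i ∈ I then A i else range N).card) * ∏ i, (if i ∈ I then h else 1) := by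
        rw [hprod]
        exact Nat.mul_le_mul_right _ hc
    _ = ∏ i, ((if i ∈ I then A i else range N).card * (if i ∈ I then h else 1)) := Finset.prod_mul_distrib.symm
    _ ≤ ∏ i, ((if i ∈ I then 5 * (D * I.card + 1) else 1) * N) := by
        refine Finset.prod_le_prod' fun i _ => ?_
        split_ifs with hi
        · exact hAc i hi
        · rw [Finset.card_range]
          omega
    _ = (∏ i, (if i ∈ I then 5 * (D * I.card + 1) else 1)) * ∏ _i : Fin n, N := Finset.prod_mul_distrib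
    _ = (5 * (D * I.card + 1)) ^ I.card * N ^ n := by
        rw [Finset.prod_ite_mem, Finset.univ_inter, Finset.prod_const, Finset.prod_const, Finset.card_univ,
          Fintype.card_fin]

end Pool.Agent.H84.TS
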