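import Pool.Agent.H84.TS.PatI
import Pool.Agent.H84.TS.Cln
import Pool.Agent.H84.TS.Ind
import Pool.Agent.H92.SR.Avg

/-!
MP_3b0ce5_lc (shortest graphs on random points): many free vertices, the mean of the running time.
-/

set_option autoImplicit false

namespace Pool.Agent.H84.TS

open Finset Pool.Agent.H92.SR Pool.Agent.H92.SR.Tr

variable {n : ℕ}

theorem meanI {N K H : ℕ} (hN : 1 ≤ N) (I : Finset (Fin n)) (P : (Fin n → ℕ) → Prop) [DecidablePred P]
    (hK : ∀ x ∈ bxx n N, ((bxx n N).filter fun z => P (mix I z x)).card * H ≤ K * N ^ n) :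
    ((bxx n N).filter P).card * H ≤ K * N ^ n := by
  have hmem : ∀ z x : Fin n → ℕ, z ∈ bxx n N → x ∈ bxx n N → mix I z x ∈ bxx n N := by
    intro z x hz hx
    rw [mem_bxx] at hz hx ⊢
    intro i
    unfold mix
    split_ifs
    · exact hz i
    · exact hx i
  have hinv : ∀ z x : Fin n → ℕ, mix I (mix I x z) (mix I z x) = x := by
    intro z x
    funext i
    unfold mix
    by_cases hi : i ∈ I <;> simp [hi]
  have h1 : ∑ x ∈ bxx n N, ((bxx n N).filter fun z => P (mix I z x)).card =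
      ((bxx n N).filter P).card * N ^ n := by
    have e1 : ∑ x ∈ bxx n N, ((bxx n N).filter fun z => P (mix I z x)).card =
        ((bxx n N ×ˢ bxx n N).filter fun q => P (mix I q.2 q.1)).card := by
      rw [Finset.card_filter, Finset.sum_product]
      refine Finset.sum_congr rfl fun x _ => ?_
      rw [Finset.card_filter]
    rw [e1, ← card_bxx n N, ← Finset.card_product]
    refine Finset.card_nbij' (fun q => (mix I q.2 q.1, mix I q.1 q.2))
      (fun q => (mix I q.2 q.1, mix I q.1 q.2)) ?_ ?_ ?_ ?_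
    · intro q hq
      rw [Finset.mem_coe, mem_filter, mem_product] at hq
      obtain ⟨⟨hq1, hq2⟩, hP⟩ := hq
      rw [Finset.mem_coe, mem_product, mem_filter]
      exact ⟨⟨hmem _ _ hq2 hq1, hP⟩, hmem _ _ hq1 hq2⟩
    · intro q hq
      rw [Finset.mem_coe, mem_product, mem_filter] at hq
      obtain ⟨⟨hq1, hP⟩, hq2⟩ := hq
      rw [Finset.mem_coe, mem_filter, mem_product]
      refine ⟨⟨hmem _ _ hq2 hq1, hmem _ _ hq1 hq2⟩, ?_⟩
      rw [hinv]
      exact hP
    · intro q _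
      exact Prod.ext (hinv q.2 q.1) (hinv q.1 q.2)
    · intro q _
      exact Prod.ext (hinv q.2 q.1) (hinv q.1 q.2)
  have h2 : ((bxx n N).filter P).card * N ^ n * H ≤ N ^ n * (K * N ^ n) := by
    rw [← h1, Finset.sum_mul]
    have h3 := Finset.sum_le_card_nsmul (bxx n N) _ _ hK
    rw [card_bxx, smul_eq_mul] at h3
    exact h3
  have h3 : (((bxx n N).filter P).card * H) * N ^ n ≤ (K * N ^ n) * N ^ n := by
    calc (((bxx n N).filter P).card * H) * N ^ n = ((bxx n N).filter P).card * N ^ n * H := by ring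
      _ ≤ N ^ n * (K * N ^ n) := h2
      _ = (K * N ^ n) * N ^ n := by ring
  exact Nat.le_of_mul_le_mul_right h3 (pow_pos hN n)

/-- bad at the level `m` -/
def BadM (F : Set (List (Fin n × Fin n))) (D b m : ℕ) (x y : Fin n → ℕ) : Prop :=
  ∃ (k : ℕ) (G : List (Fin n × Fin n)), Shortest F x y G ∧ |len x y G - k| * 2 ^ (1 + b * 4 ^ (D * m + 1)) < 1

open Classical in
theorem one_set {D N h m : ℕ} (hD : 1 ≤ D) (hn : 1 ≤ n) (h1 : 1 ≤ h) (hh : h ^ 3 ≤ N) {y : Fin n → ℕ}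
    (hy : ∀ i, y i < N) (O : Finset (Fin n)) (hO : m * (D + 1) ≤ O.card)
    (hyo : ∀ o ∈ O, ∀ j, j ≠ o → y o ≠ y j) (F : Set (List (Fin n × Fin n))) (hF : ∀ G ∈ F, Deg D G) {b : ℕ}
    (hb : 16 * (n * D * N) ≤ 2 ^ b) :
    ((bxx n N).filter fun x => BadM F D b m x y).card * h ^ m ≤
      (2 ^ (D + 1) * (n + 1) ^ D * (5 * (D * m + 1))) ^ m * N ^ n := by
  have hN1 : 1 ≤ N := by
    have := hy ⟨0, hn⟩
    omega
  obtain ⟨O', hO'1, hO'2⟩ := Finset.exists_subset_card_eq hO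
  set Q : (I : Finset (Fin n)) → ({o // o ∈ I} → Fin D → Option (Fin n)) → (Fin n → ℕ) → Prop := fun I f x =>
    ∃ (k : ℕ) (G : List (Fin n × Fin n)), Shortest F x y G ∧ (∀ o : {o // o ∈ I}, pt D (nb o.1 G) = f o) ∧
      (∀ o ∈ I, ∀ t ∈ nb o G, t ∉ I) ∧ |len x y G - k| * 2 ^ (1 + b * 4 ^ (D * m + 1)) < 1 with hQ
  have hW : ∀ I ∈ O'.powersetCard m, ∀ f, ((bxx n N).filter (Q I f)).card * h ^ m ≤
      (5 * (D * m + 1)) ^ m * N ^ n := by
    intro I hI f
    obtain ⟨hI1, hI2⟩ := Finset.mem_powersetCard.1 hI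
    refine meanI hN1 I (Q I f) fun x hx => ?_
    rcases ((bxx n N).filter fun z => Q I f (mix I z x)).eq_empty_or_nonempty with he | ⟨z0, hz0⟩
    · rw [he]; simp
    obtain ⟨k0, G0, hS0, hf0, hi0, hl0⟩ := (mem_filter.1 hz0).2
    have h2 := patI hD hn h1 hh (mem_bxx.1 hx) hy I (fun o ho => hyo o (hO'1 (hI1 ho))) F hF (fun o => nb o G0) hb
      ((bxx n N).filter fun z => Q I f (mix I z x)) (Finset.filter_subset _ _)
      (fun x G hG => len_splitI x y I G hG) (fun z hz => by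
        obtain ⟨k, G, hS, hf, hi, hl⟩ := (mem_filter.1 hz).2
        refine ⟨k, G, hS, fun o ho => ?_, hi, by rw [hI2]; exact hl⟩
        exact pt_inj ((hF G hS.1).2 o).2 ((hF G0 hS0.1).2 o).2 ((hf ⟨o, ho⟩).trans (hf0 ⟨o, ho⟩).symm))
    rw [hI2] at h2
    exact h2
  have hsub : ((bxx n N).filter fun x => BadM F D b m x y) ⊆ (O'.powersetCard m).biUnion fun I =>
      (univ : Finset ({o // o ∈ I} → Fin D → Option (Fin n))).biUnion fun f => (bxx n N).filter (Q I f) := by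
    intro x hx
    obtain ⟨hx1, k, G, hS, hl⟩ := mem_filter.1 hx
    obtain ⟨I, hI1, hI2, hI3⟩ := indep (hF G hS.1) m O' (le_of_eq hO'2.symm)
    rw [mem_biUnion]
    refine ⟨I, Finset.mem_powersetCard.2 ⟨hI1, hI2⟩, ?_⟩
    rw [mem_biUnion]
    exact ⟨fun o => pt D (nb o.1 G), mem_univ _, mem_filter.2 ⟨hx1, k, G, hS, fun o => rfl, hI3, hl⟩⟩
  have c1 := (Finset.card_le_card hsub).trans Finset.card_biUnion_le
  calc ((bxx n N).filter fun x => BadM F D b m x y).card * h ^ m ≤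
        (∑ I ∈ O'.powersetCard m, ∑ f : {o // o ∈ I} → Fin D → Option (Fin n),
          ((bxx n N).filter (Q I f)).card) * h ^ m := by
        refine Nat.mul_le_mul_right _ (c1.trans (Finset.sum_le_sum fun I _ => Finset.card_biUnion_le))
    _ = ∑ I ∈ O'.powersetCard m, ∑ f : {o // o ∈ I} → Fin D → Option (Fin n),
          ((bxx n N).filter (Q I f)).card * h ^ m := by
        rw [Finset.sum_mul]
        exact Finset.sum_congr rfl fun I _ => Finset.sum_mul _ _ _
    _ ≤ ∑ I ∈ O'.powersetCard m, ∑ _f : {o // o ∈ I} → Fin D → Option (Fin n),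
          (5 * (D * m + 1)) ^ m * N ^ n :=
        Finset.sum_le_sum fun I hI => Finset.sum_le_sum fun f _ => hW I hI f
    _ = ∑ I ∈ O'.powersetCard m, ((n + 1) ^ D) ^ m * ((5 * (D * m + 1)) ^ m * N ^ n) := by
        refine Finset.sum_congr rfl fun I hI => ?_
        rw [Finset.sum_const, smul_eq_mul, Finset.card_univ]
        congr 1
        rw [Fintype.card_fun, Fintype.card_fun, Fintype.card_option, Fintype.card_fin, Fintype.card_fin,
          Fintype.card_coe, (Finset.mem_powersetCard.1 hI).2]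
    _ = (m * (D + 1)).choose m * (((n + 1) ^ D) ^ m * ((5 * (D * m + 1)) ^ m * N ^ n)) := by
        rw [Finset.sum_const, smul_eq_mul, Finset.card_powersetCard, hO'2]
    _ ≤ 2 ^ (m * (D + 1)) * (((n + 1) ^ D) ^ m * ((5 * (D * m + 1)) ^ m * N ^ n)) :=
        Nat.mul_le_mul_right _ (Nat.choose_le_two_pow _ _)
    _ = (2 ^ (D + 1) * (n + 1) ^ D * (5 * (D * m + 1))) ^ m * N ^ n := by
        have e : 2 ^ (m * (D + 1)) = (2 ^ (D + 1)) ^ m := by rw [← pow_mul, mul_comm]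
        rw [e, mul_pow (2 ^ (D + 1) * (n + 1) ^ D) (5 * (D * m + 1)) m, mul_pow (2 ^ (D + 1)) ((n + 1) ^ D) m]
        generalize (2 ^ (D + 1)) ^ m = a, ((n + 1) ^ D) ^ m = b', (5 * (D * m + 1)) ^ m = c, N ^ n = d
        ring

/-- the vertices whose second coordinate occurs only once -/
def cln (y : Fin n → ℕ) : Finset (Fin n) := univ.filter fun o => ∀ j, j ≠ o → y o ≠ y j

open Classical in
theorem few_cln {D N m Λ B : ℕ} (hD : 1 ≤ D) (hm : 1 ≤ m) (hmn : 5 * (D + 1) * m ≤ n) (hB : n ≤ B)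
    (hBΛ : 4 * Λ ≤ B) (hΛ : 1 ≤ Λ) (hN : B ^ 5 ≤ N) :
    ((bxx n N).filter fun y => (cln y).card < m * (D + 1)).card * (2 * (2 * Λ) ^ m) ≤ N ^ n := by
  set r := 3 * n / 5 with hr
  have hn10 : 10 ≤ n := by nlinarith
  have hB1 : 1 ≤ B := by omega
  have hN1 : 1 ≤ N := (Nat.one_le_pow 5 B hB1).trans hN
  have hsub : ((bxx n N).filter fun y => (cln y).card < m * (D + 1)) ⊆
      ((Fintype.piFinset fun _ : Fin n => range N)).filter fun y => (univ.image y).card ≤ r := by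
    intro y hy
    obtain ⟨hy1, hy2⟩ := mem_filter.1 hy
    refine mem_filter.2 ⟨hy1, ?_⟩
    have h2 := clean_image y
    have h3 : (univ.filter fun o => ∀ j, j ≠ o → y o ≠ y j).card < m * (D + 1) := hy2
    have h4 : 5 * (m * (D + 1)) ≤ n := by
      calc 5 * (m * (D + 1)) = 5 * (D + 1) * m := by ring
        _ ≤ n := hmn
    omega
  have h2 := (Finset.card_le_card hsub).trans (few_image (n := n) (N := N) (r := r) (by omega) hN1)
  have hrn : r ≤ n := by omega
  have h5 : r ^ n * (2 * (2 * Λ) ^ m) ≤ N ^ (n - r) := by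
    have a1 : r ^ n ≤ B ^ n := Nat.pow_le_pow_left (hrn.trans hB) n
    have a2 : 2 * (2 * Λ) ^ m ≤ B ^ n := by
      have hmn' : m ≤ n := by nlinarith
      calc 2 * (2 * Λ) ^ m ≤ 2 ^ m * (2 * Λ) ^ m := Nat.mul_le_mul_right _ (by
              calc 2 = 2 ^ 1 := (pow_one 2).symm
                _ ≤ 2 ^ m := Nat.pow_le_pow_right (by norm_num) hm)
        _ = (4 * Λ) ^ m := by rw [← mul_pow]; ring_nf
        _ ≤ B ^ m := Nat.pow_le_pow_left hBΛ m
        _ ≤ B ^ n := Nat.pow_le_pow_right hB1 hmn'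
    calc r ^ n * (2 * (2 * Λ) ^ m) ≤ B ^ n * B ^ n := Nat.mul_le_mul a1 a2
      _ = B ^ (2 * n) := by rw [← pow_add]; ring_nf
      _ ≤ B ^ (5 * (n - r)) := Nat.pow_le_pow_right hB1 (by omega)
      _ = (B ^ 5) ^ (n - r) := by rw [pow_mul]
      _ ≤ N ^ (n - r) := Nat.pow_le_pow_left hN _
  calc ((bxx n N).filter fun y => (cln y).card < m * (D + 1)).card * (2 * (2 * Λ) ^ m) ≤
        N ^ r * r ^ n * (2 * (2 * Λ) ^ m) := Nat.mul_le_mul_right _ h2
    _ = N ^ r * (r ^ n * (2 * (2 * Λ) ^ m)) := by ring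
    _ ≤ N ^ r * N ^ (n - r) := Nat.mul_le_mul_left _ h5
    _ = N ^ n := by rw [← pow_add]; congr 1; omega

open Classical in
theorem level {D N h m Λ : ℕ} (hD : 1 ≤ D) (hn : 1 ≤ n) (hΛ : 1 ≤ Λ) (hmn : 5 * (D + 1) * m ≤ n)
    (hh : h = (4 * Λ) ^ 2 * (5 * D * 2 ^ (D + 1)) * (n + 1) ^ (D + 1)) (hhN : h ^ 3 ≤ N)
    (F : Set (List (Fin n × Fin n))) (hF : ∀ G ∈ F, Deg D G) {b : ℕ} (hb : 16 * (n * D * N) ≤ 2 ^ b) :
    ((bxx n N ×ˢ bxx n N).filter fun p => BadM F D b m p.1 p.2).card * (2 * Λ) ^ m ≤ N ^ (2 * n) := by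
  have hh1 : 1 ≤ h := by
    rw [hh]
    exact Nat.one_le_iff_ne_zero.2 (by positivity)
  have hN1 : 1 ≤ N := (Nat.one_le_pow 3 h hh1).trans hhN
  rcases Nat.eq_zero_or_pos m with h0 | hm
  · subst h0
    rw [pow_zero, mul_one]
    refine (Finset.card_filter_le _ _).trans ?_
    rw [Finset.card_product, card_bxx, ← pow_add, two_mul]
  have e1 : ((bxx n N ×ˢ bxx n N).filter fun p => BadM F D b m p.1 p.2).card =
      ∑ y ∈ bxx n N, ((bxx n N).filter fun x => BadM F D b m x y).card := by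
    rw [Finset.card_filter, Finset.sum_product_right]
    refine Finset.sum_congr rfl fun y _ => ?_
    rw [Finset.card_filter]
  set c := 2 * (2 * Λ) ^ m with hc
  have hmn' : m ≤ n := by nlinarith
  set K := 2 ^ (D + 1) * (n + 1) ^ D * (5 * (D * m + 1)) with hK
  have hK1 : 1 ≤ K := Nat.one_le_iff_ne_zero.2 (by positivity)
  have hKh : 4 * Λ * K ≤ h := by
    have a1 : D * m + 1 ≤ D * (n + 1) := by nlinarith
    have a2 : 4 * Λ ≤ (4 * Λ) ^ 2 := by nlinarith
    calc 4 * Λ * K ≤ (4 * Λ) ^ 2 * (2 ^ (D + 1) * (n + 1) ^ D * (5 * (D * (n + 1)))) :=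
          Nat.mul_le_mul a2 (Nat.mul_le_mul_left _ (Nat.mul_le_mul_left _ a1))
      _ = h := by rw [hh, pow_succ (n + 1) D]; ring
  have hcK : K ^ m * c ≤ h ^ m := by
    calc K ^ m * c ≤ K ^ m * (2 ^ m * (2 * Λ) ^ m) := Nat.mul_le_mul_left _ (Nat.mul_le_mul_right _ (by
            calc 2 = 2 ^ 1 := (pow_one 2).symm
              _ ≤ 2 ^ m := Nat.pow_le_pow_right (by norm_num) hm))
      _ = (4 * Λ * K) ^ m := by rw [← mul_pow, ← mul_pow]; ring_nf
      _ ≤ h ^ m := Nat.pow_le_pow_left hKh m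
  have e2 : ∀ y ∈ bxx n N, ((bxx n N).filter fun x => BadM F D b m x y).card * c ≤
      N ^ n + (if (cln y).card < m * (D + 1) then N ^ n * c else 0) := by
    intro y hy
    by_cases hyo : (cln y).card < m * (D + 1)
    · rw [if_pos hyo]
      have h2 : ((bxx n N).filter fun x => BadM F D b m x y).card ≤ N ^ n := by
        rw [← card_bxx n N]
        exact Finset.card_filter_le _ _
      have := Nat.mul_le_mul_right c h2
      omega
    · rw [if_neg hyo, add_zero]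
      have h2 := one_set (m := m) hD hn hh1 hhN (mem_bxx.1 hy) (cln y) (not_lt.1 hyo)
        (fun o ho => (mem_filter.1 ho).2) F hF hb
      rw [← hK] at h2
      have h3 : ((bxx n N).filter fun x => BadM F D b m x y).card * c * K ^ m ≤ N ^ n * K ^ m := by
        calc ((bxx n N).filter fun x => BadM F D b m x y).card * c * K ^ m =
              ((bxx n N).filter fun x => BadM F D b m x y).card * (K ^ m * c) := by ring
          _ ≤ ((bxx n N).filter fun x => BadM F D b m x y).card * h ^ m := Nat.mul_le_mul_left _ hcK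
          _ ≤ K ^ m * N ^ n := h2
          _ = N ^ n * K ^ m := by ring
      exact Nat.le_of_mul_le_mul_right h3 (pow_pos hK1 m)
  have hYc : ((bxx n N).filter fun y => (cln y).card < m * (D + 1)).card * c ≤ N ^ n := by
    refine few_cln (B := 4 * Λ * (n + 1)) hD hm hmn (by nlinarith) (by nlinarith) hΛ ?_
    have a1 : (4 * Λ * (n + 1)) ^ 2 ≤ h := by
      have a2 : (n + 1) ^ 2 ≤ (n + 1) ^ (D + 1) := Nat.pow_le_pow_right (by omega) (by omega)
      have a3 : 1 ≤ 5 * D * 2 ^ (D + 1) := Nat.one_le_iff_ne_zero.2 (by positivity)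
      calc (4 * Λ * (n + 1)) ^ 2 = (4 * Λ) ^ 2 * 1 * (n + 1) ^ 2 := by ring
        _ ≤ (4 * Λ) ^ 2 * (5 * D * 2 ^ (D + 1)) * (n + 1) ^ (D + 1) :=
            Nat.mul_le_mul (Nat.mul_le_mul_left _ a3) a2
        _ = h := hh.symm
    calc (4 * Λ * (n + 1)) ^ 5 ≤ (4 * Λ * (n + 1)) ^ 6 := Nat.pow_le_pow_right (by positivity) (by norm_num)
      _ = ((4 * Λ * (n + 1)) ^ 2) ^ 3 := by rw [← pow_mul]
      _ ≤ h ^ 3 := Nat.pow_le_pow_left a1 3
      _ ≤ N := hhN
  have h6 : (((bxx n N ×ˢ bxx n N).filter fun p => BadM F D b m p.1 p.2).card * (2 * Λ) ^ m) * 2 ≤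
      N ^ (2 * n) * 2 := by
    calc (((bxx n N ×ˢ bxx n N).filter fun p => BadM F D b m p.1 p.2).card * (2 * Λ) ^ m) * 2 =
          (∑ y ∈ bxx n N, ((bxx n N).filter fun x => BadM F D b m x y).card) * c := by rw [e1, hc]; ring
      _ = ∑ y ∈ bxx n N, ((bxx n N).filter fun x => BadM F D b m x y).card * c := Finset.sum_mul _ _ _
      _ ≤ ∑ y ∈ bxx n N, (N ^ n + (if (cln y).card < m * (D + 1) then N ^ n * c else 0)) :=
          Finset.sum_le_sum e2
      _ = N ^ n * N ^ n + ((bxx n N).filter fun y => (cln y).card < m * (D + 1)).card * (N ^ n * c) := by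
          rw [Finset.sum_add_distrib, Finset.sum_const, card_bxx, smul_eq_mul, ← Finset.sum_filter,
            Finset.sum_const, smul_eq_mul]
      _ = N ^ n * N ^ n + ((bxx n N).filter fun y => (cln y).card < m * (D + 1)).card * c * N ^ n := by ring
      _ ≤ N ^ n * N ^ n + N ^ n * N ^ n := Nat.add_le_add_left (Nat.mul_le_mul_right _ hYc) _
      _ = N ^ (2 * n) * 2 := by rw [two_mul n, pow_add]; ring
  exact Nat.le_of_mul_le_mul_right h6 (by norm_num)

open Classical in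
theorem main2 : ∃ (c : Prog) (T : List ℕ → ℕ → ℕ),
    (∀ L k, Eval c (encI L k) (bit (decide ((L.map fun a : ℕ => √(a : ℝ)).sum ≤ k))) (T L k)) ∧
    ∀ D : ℕ, 1 ≤ D → ∃ (C : ℕ) (q : Polynomial ℕ), ∀ n N s : ℕ, 1 ≤ n → (C * (n + 1) ^ (D + 1)) ^ 3 ≤ N →
      ∀ F : Set (List (Fin n × Fin n)), (∀ G ∈ F, Deg D G) →
      ∀ (g : (Fin n → ℕ) × (Fin n → ℕ) → List (Fin n × Fin n)) (k : (Fin n → ℕ) × (Fin n → ℕ) → ℕ),
        (∀ p ∈ bxx n N ×ˢ bxx n N, Shortest F p.1 p.2 (g p) ∧ Nat.size (k p) ≤ s) →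
        ∑ p ∈ bxx n N ×ˢ bxx n N, T (lens p.1 p.2 (g p)) (k p) ≤ N ^ (2 * n) * q.eval (n * Nat.size N + s) := by
  obtain ⟨c, T, q, Λ0, hΛ0, hE, hT, hT2, -⟩ := tim
  refine ⟨c, T, fun L k => ?_, fun D hD => ?_⟩
  · have e : decide ((L.map fun a : ℕ => √(a : ℝ)).sum ≤ k) = decide (EE L k ≤ 0) := by
      apply decide_eq_decide.2
      unfold EE
      rw [sub_nonpos]
    rw [e]
    exact hE L k
  · set Λ := Λ0 ^ (5 * D * (D + 1)) with hΛ
    have hΛ1 : 1 ≤ Λ := Nat.one_le_pow _ _ hΛ0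
    refine ⟨(4 * Λ) ^ 2 * (5 * D * 2 ^ (D + 1)),
      q.comp (Polynomial.C (4 * D + 4) * Polynomial.X + Polynomial.C (D + 5)) * Polynomial.C (Λ0 * (1 + 3 * Λ)),
      fun n N s hn hN F hF g k hgk => ?_⟩
    have hg : ∀ p ∈ bxx n N ×ˢ bxx n N, Shortest F p.1 p.2 (g p) := fun p hp => (hgk p hp).1
    have hks : ∀ p ∈ bxx n N ×ˢ bxx n N, Nat.size (k p) ≤ s := fun p hp => (hgk p hp).2
    set h := (4 * Λ) ^ 2 * (5 * D * 2 ^ (D + 1)) * (n + 1) ^ (D + 1) with hh
    have hh1 : 1 ≤ h := Nat.one_le_iff_ne_zero.2 (by positivity)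
    have hN1 : 1 ≤ N := (Nat.one_le_pow 3 h hh1).trans hN
    set b := Nat.size n + Nat.size N + D + 4 with hb
    have hb2 : 16 * (n * D * N) ≤ 2 ^ b := by
      have a1 : n ≤ 2 ^ Nat.size n := (Nat.lt_size_self n).le
      have a2 : N ≤ 2 ^ Nat.size N := (Nat.lt_size_self N).le
      have a3 : D ≤ 2 ^ D := Nat.lt_two_pow_self.le
      calc 16 * (n * D * N) ≤ 16 * (2 ^ Nat.size n * 2 ^ D * 2 ^ Nat.size N) :=
            Nat.mul_le_mul_left _ (Nat.mul_le_mul (Nat.mul_le_mul a1 a3) a2)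
        _ = 2 ^ b := by rw [hb, pow_add, pow_add, pow_add]; ring
    set b2 := b + s + 1 with hb3
    set Q := q.eval ((4 * D + 4) * (n * Nat.size N + s) + (D + 5)) * Λ0 with hQ
    set M := n / (5 * (D + 1)) with hM
    have hMn : 5 * (D + 1) * M ≤ n := Nat.mul_div_le _ _
    have hMn2 : n ≤ 5 * (D + 1) * (M + 1) := by
      have := Nat.lt_mul_div_succ n (show 0 < 5 * (D + 1) by positivity)
      exact this.le
    have hsz : ∀ p ∈ bxx n N ×ˢ bxx n N, bsz (lens p.1 p.2 (g p)) (k p) + b2 ≤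
        (4 * D + 4) * (n * Nat.size N + s) + (D + 5) := by
      intro p hp
      obtain ⟨hx, hy⟩ := mem_product.1 hp
      rw [mem_bxx] at hx hy
      have h3 := bsz_lens hx hy (hF _ (hg p hp).1) (k p)
      have hk' := hks p hp
      have hsN : 1 ≤ Nat.size N := Nat.size_pos.2 hN1
      have hsn : Nat.size n ≤ n := by
        apply Nat.size_le.2
        exact Nat.lt_two_pow_self
      have a1 : n ≤ n * Nat.size N := Nat.le_mul_of_pos_right _ hsN
      have a2 : Nat.size N ≤ n * Nat.size N := Nat.le_mul_of_pos_left _ hn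
      have a3 : n * D * (2 * Nat.size N + 2) ≤ 4 * D * (n * Nat.size N) := by
        calc n * D * (2 * Nat.size N + 2) ≤ n * D * (4 * Nat.size N) := Nat.mul_le_mul_left _ (by omega)
          _ = 4 * D * (n * Nat.size N) := by ring
      have a4 : (4 * D + 4) * (n * Nat.size N + s) =
          4 * D * (n * Nat.size N) + 4 * (n * Nat.size N) + (4 * D + 4) * s := by ring
      have a5 : 4 * s ≤ (4 * D + 4) * s := Nat.mul_le_mul_right _ (by omega)
      omega
    have hev : ∀ p ∈ bxx n N ×ˢ bxx n N, ∀ b', b' ≤ b2 → q.eval (bsz (lens p.1 p.2 (g p)) (k p) + b') ≤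
        q.eval ((4 * D + 4) * (n * Nat.size N + s) + (D + 5)) := by
      intro p hp b' hb'
      have := hsz p hp
      exact poly_mono q (by omega)
    have key := avg (bxx n N ×ˢ bxx n N) (fun p => T (lens p.1 p.2 (g p)) (k p))
      (fun m p => |len p.1 p.2 (g p) - (k p : ℕ)| * 2 ^ (1 + b * 4 ^ (D * m + 1)) < 1)
      (Q := Q) (Λ := Λ) (R := Λ0 ^ (n * D)) (M := M) (X := N ^ (2 * n)) ?_ ?_ ?_ ?_ ?_
    · refine key.trans (le_of_eq ?_)
      rw [Polynomial.eval_mul, Polynomial.eval_comp, Polynomial.eval_C, Polynomial.eval_add, Polynomial.eval_mul,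
        Polynomial.eval_C, Polynomial.eval_C, Polynomial.eval_X, hQ]
      ring
    · rw [Finset.card_product, card_bxx, ← pow_add, two_mul]
    · intro p hp m _ hbad
      rw [not_lt] at hbad
      have h2 := hT (lens p.1 p.2 (g p)) (k p) b (D * m + 1) hbad
      refine h2.trans ?_
      calc q.eval (bsz (lens p.1 p.2 (g p)) (k p) + b) * Λ0 ^ (D * m + 1) ≤
            q.eval ((4 * D + 4) * (n * Nat.size N + s) + (D + 5)) * (Λ0 * Λ ^ m) := by
            refine Nat.mul_le_mul (hev p hp b (by omega)) ?_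
            rw [pow_succ, mul_comm, hΛ, ← pow_mul]
            refine Nat.mul_le_mul_left _ (Nat.pow_le_pow_right hΛ0 ?_)
            nlinarith [Nat.zero_le (D * m), Nat.zero_le (D * D * m)]
        _ = Q * Λ ^ m := by rw [hQ]; ring
    · intro p hp
      obtain ⟨hx, hy⟩ := mem_product.1 hp
      rw [mem_bxx] at hx hy
      have hG := hF _ (hg p hp).1
      have hsum : ((lens p.1 p.2 (g p)).map fun a : ℕ => √(a : ℝ)).sum + (k p : ℝ) ≤ 2 ^ b2 := by
        have a1 := len_le hx hy (g p)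
        have a2 : ((g p).length : ℝ) ≤ n * D := by exact_mod_cast length_le hG
        have a3 : (0 : ℝ) ≤ 2 * N := by positivity
        have a4 : len p.1 p.2 (g p) ≤ n * D * (2 * N) := a1.trans (mul_le_mul_of_nonneg_right a2 a3)
        have a5 : (16 : ℝ) * (n * D * N) ≤ 2 ^ b := by exact_mod_cast hb2
        have a6 : (k p : ℝ) ≤ 2 ^ s := by
          exact_mod_cast (Nat.lt_size_self (k p)).le.trans (Nat.pow_le_pow_right (by norm_num) (hks p hp))
        have a7 : (0 : ℝ) ≤ n * D * N := by positivity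
        have a8 : (2 : ℝ) ^ b ≤ 2 ^ (b + s) := pow_le_pow_right₀ (by norm_num) (by omega)
        have a9 : (2 : ℝ) ^ s ≤ 2 ^ (b + s) := pow_le_pow_right₀ (by norm_num) (by omega)
        have a10 : (2 : ℝ) ^ b2 = 2 * 2 ^ (b + s) := by rw [hb3, pow_succ]; ring
        rw [a10]
        have a11 : ((lens p.1 p.2 (g p)).map fun a : ℕ => √(a : ℝ)).sum = len p.1 p.2 (g p) := rfl
        rw [a11]
        linarith
      have h2 := hT2 (lens p.1 p.2 (g p)) (k p) b2 hsum
      refine h2.trans ?_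
      have h3 : (lens p.1 p.2 (g p)).length ≤ n * D := by
        unfold lens
        rw [List.length_map]
        exact length_le hG
      calc q.eval (bsz (lens p.1 p.2 (g p)) (k p) + b2) * Λ0 ^ ((lens p.1 p.2 (g p)).length + 1) ≤
            q.eval ((4 * D + 4) * (n * Nat.size N + s) + (D + 5)) * (Λ0 * Λ0 ^ (n * D)) := by
            refine Nat.mul_le_mul (hev p hp b2 le_rfl) ?_
            rw [pow_succ, mul_comm]
            exact Nat.mul_le_mul_left _ (Nat.pow_le_pow_right hΛ0 h3)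
        _ = Q * Λ0 ^ (n * D) := by rw [hQ]; ring
    · intro m hm
      refine le_trans (Nat.mul_le_mul_right _ (Finset.card_le_card ?_))
        (level (m := m) hD hn hΛ1 ((Nat.mul_le_mul_left _ hm).trans hMn) hh hN F hF hb2)
      intro p hp
      obtain ⟨hp1, hp2⟩ := mem_filter.1 hp
      exact mem_filter.2 ⟨hp1, k p, g p, hg p hp1, hp2⟩
    · calc Λ0 ^ (n * D) ≤ Λ0 ^ (5 * D * (D + 1) * (M + 1)) := by
            refine Nat.pow_le_pow_right hΛ0 ?_
            calc n * D ≤ 5 * (D + 1) * (M + 1) * D := Nat.mul_le_mul_right _ hMn2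
              _ = 5 * D * (D + 1) * (M + 1) := by ring
        _ = Λ ^ (M + 1) := by rw [hΛ, ← pow_mul]
        _ = Λ * Λ ^ M := by rw [pow_succ]; ring
        _ ≤ Λ * (2 * Λ) ^ M := Nat.mul_le_mul_left _ (Nat.pow_le_pow_left (by omega) M)

open Classical in
/-- the degrees are only bounded for the chosen shortest graphs -/
theorem main3 : ∃ (c : Prog) (T : List ℕ → ℕ → ℕ),
    (∀ (L : List ℕ) (k : ℕ),
      Eval c (encI L k) (bit (decide ((L.map fun a : ℕ => √(a : ℝ)).sum ≤ k))) (T L k)) ∧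
    ∀ D : ℕ, 1 ≤ D → ∃ (C : ℕ) (q : Polynomial ℕ), ∀ n N s : ℕ, 1 ≤ n → (C * (n + 1) ^ (D + 1)) ^ 3 ≤ N →
      ∀ (F : Set (List (Fin n × Fin n))) (g : (Fin n → ℕ) × (Fin n → ℕ) → List (Fin n × Fin n))
        (k : (Fin n → ℕ) × (Fin n → ℕ) → ℕ),
        (∀ p ∈ bxx n N ×ˢ bxx n N, Shortest F p.1 p.2 (g p) ∧ Deg D (g p) ∧ Nat.size (k p) ≤ s) →
        ∑ p ∈ bxx n N ×ˢ bxx n N, T (lens p.1 p.2 (g p)) (k p) ≤
          N ^ (2 * n) * q.eval (n * Nat.size N + s) := by
  obtain ⟨c, T, h1, h2⟩ := main2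
  refine ⟨c, T, h1, fun D hD => ?_⟩
  obtain ⟨C, q, h⟩ := h2 D hD
  refine ⟨C, q, fun n N s hn hN F g k hp => ?_⟩
  refine h n N s hn hN {G | G ∈ F ∧ Deg D G} (fun G hG => hG.2) g k fun p hp' => ?_
  obtain ⟨a, b, c⟩ := hp p hp'
  exact ⟨⟨⟨a.1, b⟩, fun G' hG' => a.2 G' hG'.1⟩, c⟩

end Pool.Agent.H84.TS
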